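import Mathlib
import Pool.Graph.R_seed8.W406.TW.LT

set_option autoImplicit false

/-! # Primes with a given Frobenius trace for almost all quadratic twists, above the threshold -/

namespace Pool.Agent.H537.LX

open Finset Pool.Agent.W406.TW

lemma one' (P : Finset ℕ) (w : ℕ → ℝ) (N y : ℕ) (ε η c : ℝ) (hη : 0 < η) (hηε : η < 2 * ε)
    (hN : 1 ≤ N) (hy3 : 3 ≤ y) (hlog : 2 * Real.log N ≤ (y : ℝ) ^ (2 * ε - η))
    (hyc : Real.log y ≤ c * Real.log N) (hP : ∀ p ∈ P, p.Prime ∧ p ≠ 2 ∧ p ≤ y)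
    (hw : ∀ p ∈ P, |w p| ≤ 1) :
    (((Icc (-(N : ℤ)) N).filter
      (fun D => √(P.card : ℝ) * (y : ℝ) ^ ε < |SD P w (fun p => p) D|)).card : ℝ) ≤
      4 * N * Real.exp (-(η * (1 / 3 - c) * Real.log N)) := by
  classical
  have hN1 : (1 : ℝ) ≤ N := by exact_mod_cast hN
  have hN0 : (0 : ℝ) < N := by linarith
  have hL0 : 0 ≤ Real.log N := Real.log_nonneg hN1
  have hy3' : (3 : ℝ) ≤ y := by exact_mod_cast hy3
  have hy0 : (0 : ℝ) < y := by linarith
  have hly : 1 ≤ Real.log y := by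
    rw [Real.le_log_iff_exp_le hy0]
    linarith [Real.exp_one_lt_d9]
  have hcy : P.card ≤ y := by
    have h1 : P.card ≤ (Icc 1 y).card := card_le_card fun p hp =>
      mem_Icc.2 ⟨(hP p hp).1.one_lt.le, (hP p hp).2.2⟩
    simpa using h1
  rcases P.eq_empty_or_nonempty with hPe | hPn
  · subst hPe
    have : (Icc (-(N : ℤ)) N).filter
      (fun D => √((∅ : Finset ℕ).card : ℝ) * (y : ℝ) ^ ε < |SD ∅ w (fun p => p) D|) = ∅ := by
      apply filter_eq_empty_iff.2
      intro D _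
      simp [SD]
    rw [this, card_empty, Nat.cast_zero]
    positivity
  have hp1 : (1 : ℝ) ≤ P.card := by exact_mod_cast hPn.card_pos
  have hp0 : (0 : ℝ) < P.card := by linarith
  set m : ℕ := ⌊Real.log N / (3 * Real.log y)⌋₊ with hm
  have hden : 0 < 3 * Real.log y := by positivity
  have hm1 : (m : ℝ) * (3 * Real.log y) ≤ Real.log N := by
    have := Nat.floor_le (a := Real.log N / (3 * Real.log y)) (by positivity)
    rwa [le_div_iff₀ hden] at this
  have hm2 : Real.log N < ((m : ℝ) + 1) * (3 * Real.log y) := by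
    have := Nat.lt_floor_add_one (Real.log N / (3 * Real.log y))
    rwa [div_lt_iff₀ hden] at this
  have hm3 : (m : ℝ) ≤ Real.log N := by
    have h2 : (0 : ℝ) ≤ m := Nat.cast_nonneg m
    nlinarith
  set F := (Icc (-(N : ℤ)) N).filter (fun D => √(P.card : ℝ) * (y : ℝ) ^ ε < |SD P w (fun p => p) D|) with hF
  have hyε : 0 < (y : ℝ) ^ ε := Real.rpow_pos_of_pos hy0 ε
  have hfew := few P w (fun p => p) N m y (√(P.card : ℝ) * (y : ℝ) ^ ε) (by positivity)
    (fun p hp => (hP p hp).1.odd_of_ne_two (hP p hp).2.1) (fun p hp => (hP p hp).2.2)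
    (indep_id P fun p hp => (hP p hp).1) hw
  rw [← hF] at hfew
  have hV : (√(P.card : ℝ) * (y : ℝ) ^ ε) ^ (2 * m) = (P.card : ℝ) ^ m * ((y : ℝ) ^ ε) ^ (2 * m) := by
    rw [mul_pow, pow_mul, Real.sq_sqrt hp0.le]
  rw [hV] at hfew
  set Z : ℝ := (y : ℝ) ^ (2 * ε - η) with hZ
  set W : ℝ := (y : ℝ) ^ η with hW
  have hZW : ((y : ℝ) ^ ε) ^ (2 * m) = Z ^ m * W ^ m := by
    rw [pow_mul, ← mul_pow]
    congr 1
    rw [hZ, hW, ← Real.rpow_add hy0, ← Real.rpow_natCast, ← Real.rpow_mul hy0.le]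
    congr 1
    push_cast
    ring
  rw [hZW] at hfew
  have hpm : 0 < (P.card : ℝ) ^ m := by positivity
  have h1 : (F.card : ℝ) * (Z ^ m * W ^ m) ≤
      ((2 * m : ℕ) : ℝ) ^ m * (2 * N + 1) + (P.card : ℝ) ^ m * (y : ℝ) ^ (2 * m) := by
    have h2 : (P.card : ℝ) ^ m * ((F.card : ℝ) * (Z ^ m * W ^ m)) ≤ (P.card : ℝ) ^ m *
        (((2 * m : ℕ) : ℝ) ^ m * (2 * N + 1) + (P.card : ℝ) ^ m * (y : ℝ) ^ (2 * m)) := by
      calc (P.card : ℝ) ^ m * ((F.card : ℝ) * (Z ^ m * W ^ m))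
          = (F.card : ℝ) * ((P.card : ℝ) ^ m * (Z ^ m * W ^ m)) := by ring
        _ ≤ _ := hfew
        _ = _ := by ring
    exact le_of_mul_le_mul_left h2 hpm
  have h3 : (P.card : ℝ) ^ m * (y : ℝ) ^ (2 * m) ≤ N := by
    calc (P.card : ℝ) ^ m * (y : ℝ) ^ (2 * m) ≤ (y : ℝ) ^ m * (y : ℝ) ^ (2 * m) := by
          apply mul_le_mul_of_nonneg_right _ (by positivity)
          exact pow_le_pow_left₀ hp0.le (by exact_mod_cast hcy) m
      _ = Real.exp ((m : ℝ) * (3 * Real.log y)) := by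
          rw [← pow_add]
          rw [show (m : ℝ) * (3 * Real.log y) = ((m + 2 * m : ℕ) : ℝ) * Real.log y by
            push_cast; ring]
          rw [Real.exp_nat_mul, Real.exp_log hy0]
      _ ≤ Real.exp (Real.log N) := Real.exp_le_exp.2 hm1
      _ = N := Real.exp_log hN0
  have hZ0 : 0 < Z := Real.rpow_pos_of_pos hy0 _
  have hW0 : 0 < W := Real.rpow_pos_of_pos hy0 _
  have h4 : ((2 * m : ℕ) : ℝ) ^ m ≤ Z ^ m := by
    apply pow_le_pow_left₀ (by positivity)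
    push_cast
    linarith
  have hZ1 : 1 ≤ Z := Real.one_le_rpow (by linarith) (by linarith)
  have h5 : (1 : ℝ) ≤ Z ^ m := one_le_pow₀ hZ1
  have h6 : (F.card : ℝ) * W ^ m ≤ 4 * N := by
    have h7 : (F.card : ℝ) * W ^ m * Z ^ m ≤ 4 * N * Z ^ m := by
      calc (F.card : ℝ) * W ^ m * Z ^ m = (F.card : ℝ) * (Z ^ m * W ^ m) := by ring
        _ ≤ _ := h1
        _ ≤ Z ^ m * (3 * N) + N := by
            apply add_le_add _ h3
            apply mul_le_mul h4 _ (by positivity) (by positivity)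
            linarith
        _ ≤ 4 * N * Z ^ m := by nlinarith
    exact le_of_mul_le_mul_right h7 (by positivity)
  have h8 : Real.exp (η * (1 / 3 - c) * Real.log N) ≤ W ^ m := by
    have e1 : W ^ m = Real.exp (η * ((m : ℝ) * Real.log y)) := by
      rw [hW, Real.rpow_def_of_pos hy0, ← Real.exp_nat_mul]
      congr 1
      ring
    rw [e1]
    apply Real.exp_le_exp.2
    rw [mul_assoc]
    apply mul_le_mul_of_nonneg_left _ hη.le
    have e2 : Real.log N / 3 < ((m : ℝ) + 1) * Real.log y := by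
      rw [div_lt_iff₀ (by norm_num)]
      linarith
    have e3 : (1 / 3 - c) * Real.log N = Real.log N / 3 - c * Real.log N := by ring
    rw [e3]
    linarith
  rw [Real.exp_neg, ← div_eq_mul_inv, le_div_iff₀ (Real.exp_pos _)]
  calc (F.card : ℝ) * Real.exp (η * (1 / 3 - c) * Real.log N) ≤ (F.card : ℝ) * W ^ m :=
        mul_le_mul_of_nonneg_left h8 (Nat.cast_nonneg _)
    _ ≤ 4 * N := h6

lemma PT_neg (A B t : ℤ) (x : ℕ) : PT A B (-t) x = PT A B t x := by
  ext p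
  rw [mem_PT, mem_PT, neg_neg]
  tauto

lemma sg_neg (A B t : ℤ) (ht : t ≠ 0) (x p : ℕ) (hp : p ∈ PT A B t x) :
    sg A B (-t) p = - sg A B t p := by
  obtain ⟨_, _, _, hor⟩ := mem_PT.1 hp
  unfold sg
  rcases hor with h | h
  · rw [h, if_neg (by omega), if_pos rfl]
  · rw [h, if_pos rfl, if_neg (by omega)]; norm_num

lemma PT_prop (A B t : ℤ) (x p : ℕ) (hp : p ∈ PT A B t x) : p.Prime ∧ p ≠ 2 ∧ p ≤ x := by
  obtain ⟨⟨_, h1⟩, h2, h3, _⟩ := mem_PT.1 hp
  refine ⟨h2, ?_, h1⟩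
  rintro rfl
  exact h3 (Dvd.intro _ rfl)

lemma sg_abs (A B t : ℤ) (p : ℕ) : |sg A B t p| ≤ 1 := by
  unfold sg; split_ifs <;> norm_num

/-- half of the sum is the deviation -/
lemma dev (A B t D : ℤ) (ht : t ≠ 0) (x : ℕ) :
    (piT (A * D ^ 2) (B * D ^ 3) t x : ℝ) - (piT A B t x + piT A B (-t) x) / 2 =
      (SD (PT A B t x) (sg A B t) (fun p => p) D -
        (((PT A B t x).filter (fun p : ℕ => (p : ℤ) ∣ D)).card : ℝ)) / 2 := by
  classical
  rw [← card_PT A B t ht x, piT_twist A B t D ht x]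
  set P := PT A B t x
  rw [← sum_div, sum_add_distrib]
  have h1 : ∑ p ∈ P, (if (p : ℤ) ∣ D then (0 : ℝ) else 1) =
      (P.card : ℝ) - ((P.filter (fun p : ℕ => (p : ℤ) ∣ D)).card : ℝ) := by
    rw [card_filter]
    push_cast
    rw [card_eq_sum_ones]
    push_cast
    rw [← sum_sub_distrib]
    refine sum_congr rfl fun p _ => ?_
    split_ifs <;> norm_num
  rw [h1]
  unfold SD
  ring

/-- above the threshold -/
theorem above (ε C : ℝ) (hε : 0 < ε) (hC : 1 / (2 * ε) < C) :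
    ∃ c : ℝ, 0 < c ∧ ∃ N₀ : ℕ, ∀ N : ℕ, N₀ ≤ N → ∀ A B : ℤ,
      ({D : ℤ | D ≠ 0 ∧ |D| ≤ N ∧ ∃ x : ℕ, (Real.log N) ^ C ≤ x ∧ (x : ℝ) ≤ (N : ℝ) ^ c ∧
        ∃ t : ℤ, t ≠ 0 ∧ √((piT A B t x : ℝ) + piT A B (-t) x) * (x : ℝ) ^ ε <
          |(piT (A * D ^ 2) (B * D ^ 3) t x : ℝ) - (piT A B t x + piT A B (-t) x) / 2|}.ncard : ℝ) ≤
        (N : ℝ) ^ (1 - c) := by
  classical
  have hC0 : 0 < C := lt_trans (by positivity) hC
  have hCε : 1 < 2 * ε * C := by
    rw [div_lt_iff₀ (by positivity)] at hC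
    linarith
  set η : ℝ := ε - 1 / (2 * C) with hηd
  have hη : 0 < η := by
    rw [hηd, sub_pos, div_lt_iff₀ (by positivity)]
    linarith
  have hη2 : η < 2 * ε := by
    have : 0 < 1 / (2 * C) := by positivity
    rw [hηd]; linarith
  have hCe : 1 < C * (2 * ε - η) := by
    have e : C * (2 * ε - η) = C * ε + 1 / 2 := by
      rw [hηd]
      field_simp
      ring
    rw [e]; linarith
  set c : ℝ := min (1 / 6) (η / 36) with hc
  have hc0 : 0 < c := lt_min (by norm_num) (by positivity)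
  have hc1 : c ≤ 1 / 6 := min_le_left _ _
  have hc2 : c ≤ η / 36 := min_le_right _ _
  -- size of `N`
  have hlim := (Real.tendsto_log_atTop.comp tendsto_natCast_atTop_atTop).eventually_ge_atTop
    (max 3 (12 * Real.log 4 / η))
  have hlim2 := ((tendsto_rpow_atTop (by linarith : 0 < C * (2 * ε - η) - 1)).comp
    (Real.tendsto_log_atTop.comp tendsto_natCast_atTop_atTop)).eventually_ge_atTop (2 : ℝ)
  have hlim3 := ((tendsto_rpow_atTop hC0).comp
    (Real.tendsto_log_atTop.comp tendsto_natCast_atTop_atTop)).eventually_ge_atTop (3 : ℝ)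
  obtain ⟨N₀, hN₀⟩ := Filter.eventually_atTop.1 (((hlim.and hlim2).and hlim3).and
    (Filter.eventually_ge_atTop 1))
  refine ⟨c, hc0, N₀, fun N hN A B => ?_⟩
  obtain ⟨⟨⟨hL, hL2⟩, hL3⟩, hN1⟩ := hN₀ N hN
  simp only [Function.comp_apply] at hL hL2 hL3
  set L : ℝ := Real.log N with hLdef
  have hLL3 : 3 ≤ L := le_trans (le_max_left _ _) hL
  have hL4 : 12 * Real.log 4 / η ≤ L := le_trans (le_max_right _ _) hL
  have hL0 : 0 < L := by linarith
  have hN1' : (1 : ℝ) ≤ N := by exact_mod_cast hN1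
  have hN0 : (0 : ℝ) < N := by linarith
  -- what `x` satisfies
  have hxprop : ∀ x : ℕ, L ^ C ≤ x → 3 ≤ x ∧ 2 * L ≤ (x : ℝ) ^ (2 * ε - η) ∧ 2 * L ≤ (x : ℝ) ^ (2 * ε) := by
    intro x hx
    have h3 : (3 : ℝ) ≤ x := le_trans hL3 hx
    have h1 : 2 * L ≤ (x : ℝ) ^ (2 * ε - η) := by
      calc 2 * L ≤ L ^ (C * (2 * ε - η) - 1) * L := mul_le_mul_of_nonneg_right hL2 hL0.le
        _ = L ^ (C * (2 * ε - η)) := by
            rw [← Real.rpow_add_one hL0.ne']; congr 1; ring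
        _ = (L ^ C) ^ (2 * ε - η) := by rw [Real.rpow_mul hL0.le]
        _ ≤ _ := Real.rpow_le_rpow (by positivity) hx (by linarith)
    refine ⟨by exact_mod_cast h3, h1, le_trans h1 ?_⟩
    exact Real.rpow_le_rpow_of_exponent_le (by linarith) (by linarith)
  set Q : ℝ := 4 * N * Real.exp (-(η / 6 * L)) with hQ
  have hQ0 : 0 ≤ Q := by positivity
  set Y : Finset ℕ := (Icc 1 ⌊(N : ℝ) ^ c⌋₊).filter (fun y => L ^ C ≤ (y : ℝ)) with hY
  set FF : ℕ → ℕ → Finset ℤ := fun y t => (Icc (-(N : ℤ)) N).filter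
    (fun D => √((PT A B (t : ℤ) y).card : ℝ) * (y : ℝ) ^ ε <
      |SD (PT A B (t : ℤ) y) (sg A B (t : ℤ)) (fun p => p) D|) with hFF
  have hone : ∀ y ∈ Y, ∀ t ∈ Icc 1 y, ((FF y t).card : ℝ) ≤ Q := by
    intro y hy t ht
    obtain ⟨hy0, hy1⟩ := mem_filter.1 hy
    obtain ⟨h3, h4, _⟩ := hxprop y hy1
    have hyN : (y : ℝ) ≤ (N : ℝ) ^ c := by
      have := (mem_Icc.1 hy0).2
      exact le_trans (by exact_mod_cast this) (Nat.floor_le (by positivity))
    have hypos : (0 : ℝ) < y := by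
      have : 0 < y := by omega
      exact_mod_cast this
    have hly : Real.log y ≤ c * Real.log N := by
      rw [← Real.log_rpow hN0]
      exact Real.log_le_log hypos hyN
    refine le_trans (one' (PT A B (t : ℤ) y) (sg A B (t : ℤ)) N y ε η c hη hη2 hN1 h3 h4 hly
      (fun p hp => PT_prop A B t y p hp) (fun p _ => sg_abs A B t p)) ?_
    rw [hQ]
    apply mul_le_mul_of_nonneg_left _ (by positivity)
    apply Real.exp_le_exp.2
    apply neg_le_neg
    apply mul_le_mul_of_nonneg_right _ hL0.le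
    have : (1 : ℝ) / 6 ≤ 1 / 3 - c := by linarith
    calc η / 6 = η * (1 / 6) := by ring
      _ ≤ _ := mul_le_mul_of_nonneg_left this hη.le
  have hYc : (Y.card : ℝ) ≤ (N : ℝ) ^ c := by
    calc (Y.card : ℝ) ≤ ((Icc 1 ⌊(N : ℝ) ^ c⌋₊).card : ℝ) := by exact_mod_cast card_filter_le _ _
      _ = (⌊(N : ℝ) ^ c⌋₊ : ℝ) := by rw [Nat.card_Icc]; simp
      _ ≤ (N : ℝ) ^ c := Nat.floor_le (by positivity)
  have hbig : ((Y.biUnion (fun y => (Icc 1 y).biUnion (fun t => FF y t))).card : ℝ) ≤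
      (N : ℝ) ^ c * ((N : ℝ) ^ c * Q) := by
    calc _ ≤ ∑ y ∈ Y, (((Icc 1 y).biUnion (fun t => FF y t)).card : ℝ) := by
          exact_mod_cast card_biUnion_le
      _ ≤ ∑ y ∈ Y, ((N : ℝ) ^ c * Q) := by
          apply sum_le_sum
          intro y hy
          obtain ⟨hy0, hy1⟩ := mem_filter.1 hy
          have hyN : (y : ℝ) ≤ (N : ℝ) ^ c := by
            have := (mem_Icc.1 hy0).2
            exact le_trans (by exact_mod_cast this) (Nat.floor_le (by positivity))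
          calc _ ≤ ∑ t ∈ Icc 1 y, ((FF y t).card : ℝ) := by exact_mod_cast card_biUnion_le
            _ ≤ ∑ t ∈ Icc 1 y, Q := sum_le_sum fun t ht => hone y hy t ht
            _ = (y : ℝ) * Q := by rw [sum_const, Nat.card_Icc, nsmul_eq_mul]; simp
            _ ≤ _ := mul_le_mul_of_nonneg_right hyN hQ0
      _ = (Y.card : ℝ) * ((N : ℝ) ^ c * Q) := by rw [sum_const, nsmul_eq_mul]
      _ ≤ _ := mul_le_mul_of_nonneg_right hYc (by positivity)
  have hfin : (N : ℝ) ^ c * ((N : ℝ) ^ c * Q) ≤ (N : ℝ) ^ (1 - c) := by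
    have e1 : (N : ℝ) ^ c * ((N : ℝ) ^ c * Q) =
        Real.exp (Real.log 4 + (1 + 2 * c - η / 6) * L) := by
      rw [hQ, Real.rpow_def_of_pos hN0, ← hLdef]
      have e4 : (4 : ℝ) = Real.exp (Real.log 4) := (Real.exp_log (by norm_num)).symm
      have eN : (N : ℝ) = Real.exp L := (Real.exp_log hN0).symm
      calc Real.exp (L * c) * (Real.exp (L * c) * (4 * N * Real.exp (-(η / 6 * L))))
          = Real.exp (L * c) * (Real.exp (L * c) * (Real.exp (Real.log 4) * Real.exp L *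
              Real.exp (-(η / 6 * L)))) := by rw [← e4, ← eN]
        _ = _ := by
            rw [← Real.exp_add, ← Real.exp_add, ← Real.exp_add, ← Real.exp_add]
            congr 1
            ring
    rw [e1, Real.rpow_def_of_pos hN0, ← hLdef]
    apply Real.exp_le_exp.2
    have h9 : Real.log 4 ≤ η / 12 * L := by
      rw [div_le_iff₀ hη] at hL4
      linarith
    nlinarith
  refine le_trans ?_ (le_trans hbig hfin)
  rw [← Set.ncard_coe_finset]
  refine Nat.cast_le.2 (Set.ncard_le_ncard ?_ (Finset.finite_toSet _))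
  intro D hD
  obtain ⟨hD0, hDN, x, hx1, hx2, t, ht, hlt⟩ := hD
  obtain ⟨hx3, _, hx2ε⟩ := hxprop x hx1
  set P := PT A B t x with hP
  have hPp : ∀ p ∈ P, p.Prime := fun p hp => (mem_PT.1 hp).2.1
  rw [mem_coe, mem_biUnion]
  refine ⟨x, mem_filter.2 ⟨mem_Icc.2 ⟨by omega, Nat.le_floor hx2⟩, hx1⟩, ?_⟩
  rw [mem_biUnion]
  have hx0 : (0 : ℝ) < x := by
    have : 0 < x := by omega
    exact_mod_cast this
  -- the divisors
  have hcard : ((P.card : ℕ) : ℝ) = piT A B t x + piT A B (-t) x := card_PT A B t ht x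
  have hbε : 0 < (x : ℝ) ^ ε := Real.rpow_pos_of_pos hx0 _
  have hdiv : ((P.filter (fun p : ℕ => (p : ℤ) ∣ D)).card : ℝ) ≤ √(P.card : ℝ) * (x : ℝ) ^ ε := by
    set j : ℝ := ((P.filter (fun p : ℕ => (p : ℤ) ∣ D)).card : ℝ) with hj
    have hj0 : 0 ≤ j := Nat.cast_nonneg _
    have hjm : j ≤ P.card := by rw [hj]; exact_mod_cast card_filter_le P (fun p : ℕ => (p : ℤ) ∣ D)
    have hjL : j ≤ 2 * L := by
      refine le_trans (few_div P hPp D hD0) ?_
      have : Real.log (D.natAbs : ℝ) ≤ L := by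
        apply Real.log_le_log
        · have := Int.natAbs_pos.2 hD0
          exact_mod_cast this
        · have : (D.natAbs : ℤ) ≤ N := by rwa [Int.natCast_natAbs]
          exact_mod_cast this
      linarith
    have hsq : j ^ 2 ≤ (√(P.card : ℝ) * (x : ℝ) ^ ε) ^ 2 := by
      rw [mul_pow, Real.sq_sqrt (Nat.cast_nonneg _)]
      have e : ((x : ℝ) ^ ε) ^ 2 = (x : ℝ) ^ (2 * ε) := by
        rw [← Real.rpow_natCast, ← Real.rpow_mul hx0.le]
        congr 1
        push_cast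
        ring
      rw [e, sq]
      exact mul_le_mul hjm (le_trans hjL hx2ε) hj0 (Nat.cast_nonneg _)
    exact (abs_le_of_sq_le_sq' hsq (by positivity)).2
  have hbigS : √(P.card : ℝ) * (x : ℝ) ^ ε < |SD P (sg A B t) (fun p => p) D| := by
    rw [dev A B t D ht x, ← hcard, ← hP] at hlt
    rw [abs_div, abs_of_pos (by norm_num : (0 : ℝ) < 2), lt_div_iff₀ (by norm_num : (0 : ℝ) < 2)] at hlt
    have h2 := abs_sub (SD P (sg A B t) (fun p => p) D) ((P.filter (fun p : ℕ => (p : ℤ) ∣ D)).card : ℝ)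
    have h3 : |((P.filter (fun p : ℕ => (p : ℤ) ∣ D)).card : ℝ)| =
        ((P.filter (fun p : ℕ => (p : ℤ) ∣ D)).card : ℝ) := abs_of_nonneg (Nat.cast_nonneg _)
    linarith
  have hPn : P.Nonempty := by
    rw [nonempty_iff_ne_empty]
    intro hPe
    rw [hPe] at hbigS
    simp [SD] at hbigS
  obtain ⟨q, hq⟩ := hPn
  have htx : t.natAbs ∈ Icc 1 x := by
    rw [mem_Icc]
    refine ⟨Int.natAbs_pos.2 ht, ?_⟩
    obtain ⟨⟨_, hqx⟩, _, _, hor⟩ := mem_PT.1 hq
    have h1 := ap_abs A B q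
    have h2 : |ap A B q| = |t| := by
      rcases hor with h | h <;> rw [h]
      exact abs_neg t
    rw [h2] at h1
    have h3 : (t.natAbs : ℤ) ≤ q := by rwa [Int.natCast_natAbs]
    have h4 : t.natAbs ≤ q := by exact_mod_cast h3
    omega
  refine ⟨t.natAbs, htx, mem_filter.2 ⟨mem_Icc.2 (abs_le.1 hDN), ?_⟩⟩
  rcases Int.natAbs_eq t with hta | hta
  · rw [← hta, ← hP]; exact hbigS
  · have hPP : PT A B (t.natAbs : ℤ) x = P := by
      have : ((t.natAbs : ℤ)) = -t := by omega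
      rw [this, PT_neg]
    have hSS : SD P (sg A B (t.natAbs : ℤ)) (fun p => p) D = - SD P (sg A B t) (fun p => p) D := by
      unfold SD
      rw [← sum_neg_distrib]
      refine sum_congr rfl fun p hp => ?_
      rw [← neg_mul]
      congr 1
      have : ((t.natAbs : ℤ)) = -t := by omega
      rw [this]
      exact sg_neg A B t ht x p hp
    rw [hPP, hSS, abs_neg]
    exact hbigS

end Pool.Agent.H537.LX
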