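import Mathlib
import Pool.Agent.H537.LX.Pos

set_option autoImplicit false

/-! # The difference and the sum of the counts at `t` and `-t` for a quadratic twist -/

namespace Pool.Agent.H537.LX

open Finset Pool.Agent.W406.TW

/-- the difference of the counts at `t` and `-t` -/
lemma diff (A B t D : ℤ) (ht : t ≠ 0) (x : ℕ) :
    (piT (A * D ^ 2) (B * D ^ 3) t x : ℝ) - piT (A * D ^ 2) (B * D ^ 3) (-t) x =
      SD (PT A B t x) (sg A B t) (fun p => p) D := by
  have h1 := dev A B t D ht x
  have h2 := dev A B (-t) D (neg_ne_zero.2 ht) x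
  rw [neg_neg, PT_neg] at h2
  have h3 : SD (PT A B t x) (sg A B (-t)) (fun p => p) D = - SD (PT A B t x) (sg A B t) (fun p => p) D := by
    unfold SD
    rw [← sum_neg_distrib]
    refine sum_congr rfl fun p hp => ?_
    rw [← neg_mul, sg_neg A B t ht x p hp]
  rw [h3] at h2
  linarith

/-- the sum of the counts at `t` and `-t` -/
lemma add_le (A B t D : ℤ) (ht : t ≠ 0) (x : ℕ) :
    (piT (A * D ^ 2) (B * D ^ 3) t x : ℝ) + piT (A * D ^ 2) (B * D ^ 3) (-t) x ≤
      piT A B t x + piT A B (-t) x := by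
  have h1 := dev A B t D ht x
  have h2 := dev A B (-t) D (neg_ne_zero.2 ht) x
  rw [neg_neg, PT_neg] at h2
  have h3 : SD (PT A B t x) (sg A B (-t)) (fun p => p) D = - SD (PT A B t x) (sg A B t) (fun p => p) D := by
    unfold SD
    rw [← sum_neg_distrib]
    refine sum_congr rfl fun p hp => ?_
    rw [← neg_mul, sg_neg A B t ht x p hp]
  rw [h3] at h2
  have h4 : (0 : ℝ) ≤ (((PT A B t x).filter (fun p : ℕ => (p : ℤ) ∣ D)).card : ℝ) := Nat.cast_nonneg _
  linarith

end Pool.Agent.H537.LX
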