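import Mathlib
import Pool.Graph.R_seed8.W406.TW.LT

set_option autoImplicit false

/-! # Jacobi symbols `(D | n)` for products `n` of powers of primes of a set; the number of the diagonal terms -/

namespace Pool.Agent.H537.LX

open Finset Pool.Agent.W406.TW

/-- the sum of `(D | n)` over `1 ≤ D ≤ N` -/
def J (N n : ℕ) : ℤ := ∑ i ∈ range N, jacobiSym (1 + (i : ℤ)) n

lemma J_le {n : ℕ} (hn : Odd n) (h : ¬ IsSquare n) (N : ℕ) : |J N n| ≤ n := sum_le hn h N 1

/-- the product attached to exponents -/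
def nn (P : Finset ℕ) (a : ℕ → ℕ) : ℕ := ∏ p ∈ P, p ^ a p

lemma nn_odd (P : Finset ℕ) (hP : ∀ p ∈ P, p.Prime ∧ p ≠ 2) (a : ℕ → ℕ) : Odd (nn P a) := by
  unfold nn
  apply Finset.prod_induction _ Odd (fun a b ha hb => ha.mul hb) odd_one
  intro p hp
  exact ((hP p hp).1.odd_of_ne_two (hP p hp).2).pow

lemma nn_fact (P : Finset ℕ) (hP : ∀ p ∈ P, p.Prime) (a : ℕ → ℕ) (q : ℕ) (hq : q ∈ P) :
    (nn P a).factorization q = a q := by
  unfold nn
  rw [Nat.factorization_prod fun p hp => pow_ne_zero _ (hP p hp).ne_zero, Finsupp.finsetSum_apply]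
  rw [sum_eq_single q]
  · rw [Nat.factorization_pow, Finsupp.smul_apply, (hP q hq).factorization_self, smul_eq_mul, mul_one]
  · intro p hp hpq
    rw [Nat.factorization_pow, Finsupp.smul_apply, (hP p hp).factorization, Finsupp.single_apply,
      if_neg hpq, smul_zero]
  · intro h; exact absurd hq h

lemma nn_ne (P : Finset ℕ) (hP : ∀ p ∈ P, p.Prime) (a : ℕ → ℕ) : nn P a ≠ 0 :=
  prod_ne_zero_iff.2 fun p hp => pow_ne_zero _ (hP p hp).ne_zero

lemma nn_notsq (P : Finset ℕ) (hP : ∀ p ∈ P, p.Prime) (a : ℕ → ℕ) (h : ¬ ∀ p ∈ P, Even (a p)) :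
    ¬ IsSquare (nn P a) := by
  rintro ⟨r, hr⟩
  apply h
  intro p hp
  rw [← nn_fact P hP a p hp, hr]
  have hr0 : r ≠ 0 := by
    rintro rfl
    exact nn_ne P hP a (by rw [hr])
  rw [Nat.factorization_mul hr0 hr0, Finsupp.add_apply]
  exact ⟨_, rfl⟩

lemma jac_nn (P : Finset ℕ) (hP : ∀ p ∈ P, p.Prime) (a : ℕ → ℕ) (D : ℤ) :
    jacobiSym D (nn P a) = ∏ p ∈ P, jacobiSym D p ^ a p := by
  unfold nn
  rw [jac_prod D P (fun p => p ^ a p) fun p hp => pow_ne_zero _ (hP p hp).ne_zero]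
  refine prod_congr rfl fun p _ => ?_
  exact jacobiSym.pow_right D p (a p)

lemma totient_prod (T : Finset ℕ) (hT : ∀ p ∈ T, p.Prime ∧ p ≠ 2) :
    (2 / 3 : ℝ) ^ T.card ≤ (((∏ p ∈ T, p).totient : ℕ) : ℝ) / ((∏ p ∈ T, p : ℕ) : ℝ) := by
  classical
  induction T using Finset.induction_on with
  | empty => simp
  | insert q T hq ih =>
    have hT' : ∀ p ∈ T, p.Prime ∧ p ≠ 2 := fun p hp => hT p (mem_insert_of_mem hp)
    have hqp := hT q (mem_insert_self _ _)
    have hcop : Nat.Coprime q (∏ p ∈ T, p) := by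
      apply Nat.Coprime.prod_right
      intro p hp
      apply (Nat.coprime_primes hqp.1 (hT' p hp).1).2
      rintro rfl
      exact hq hp
    rw [card_insert_of_notMem hq, prod_insert hq, Nat.totient_mul hcop, Nat.totient_prime hqp.1,
      pow_succ, mul_comm]
    push_cast
    have hq3 : 3 ≤ q := by
      have := hqp.1.two_le
      have := hqp.2
      omega
    have hq3' : (3 : ℝ) ≤ q := by exact_mod_cast hq3
    have hsub : ((q - 1 : ℕ) : ℝ) = (q : ℝ) - 1 := by
      push_cast [Nat.cast_sub (by omega : 1 ≤ q)]; ring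
    rw [hsub, mul_div_mul_comm]
    have e1 : (2 / 3 : ℝ) ≤ ((q : ℝ) - 1) / q := by
      rw [le_div_iff₀ (by linarith)]
      linarith
    have ih' := ih hT'
    push_cast at ih'
    exact mul_le_mul e1 ih' (by positivity) (le_trans (by norm_num) e1)

/-- the exponents attached to a set -/
def al (T : Finset ℕ) (p : ℕ) : ℕ := if p ∈ T then 2 else 0

lemma nn_al (P T : Finset ℕ) (hT : T ⊆ P) : nn P (al T) = (∏ p ∈ T, p) ^ 2 := by
  unfold nn al
  rw [← prod_pow]
  rw [← prod_subset hT]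
  · refine prod_congr rfl fun p hp => ?_
    rw [if_pos hp]
  · intro p _ hp
    rw [if_neg hp, pow_zero]

lemma al_mem (P T : Finset ℕ) (k : ℕ) (hT : T ∈ powersetCard k P) : al T ∈ piAntidiag P (2 * k) := by
  obtain ⟨h1, h2⟩ := mem_powersetCard.1 hT
  rw [mem_piAntidiag]
  constructor
  · unfold al
    rw [← sum_filter, filter_mem_eq_inter, inter_eq_right.2 h1, sum_const, h2, smul_eq_mul]
    ring
  · intro p hp
    unfold al at hp
    by_contra hc
    rw [if_neg (fun h => hc (h1 h))] at hp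
    exact hp rfl

lemma al_inj {T T' : Finset ℕ} (h : al T = al T') : T = T' := by
  ext p
  have := congrFun h p
  unfold al at this
  by_cases h1 : p ∈ T <;> by_cases h2 : p ∈ T'
  · simp [h1, h2]
  · rw [if_pos h1, if_neg h2] at this; exact absurd this (by norm_num)
  · rw [if_neg h1, if_pos h2] at this; exact absurd this (by norm_num)
  · simp [h1, h2]

lemma mult_al (P T : Finset ℕ) (k : ℕ) (hT : T ∈ powersetCard k P) :
    (Nat.multinomial P (al T) : ℝ) = ((2 * k).factorial : ℝ) / 2 ^ k := by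
  obtain ⟨h1, h2⟩ := mem_powersetCard.1 hT
  have hs : ∑ p ∈ P, al T p = 2 * k := (mem_piAntidiag.1 (al_mem P T k hT)).1
  have hp : ∏ p ∈ P, (al T p).factorial = 2 ^ k := by
    unfold al
    rw [← prod_subset h1]
    · rw [← h2, ← prod_const]
      refine prod_congr rfl fun p hp => ?_
      rw [if_pos hp]; rfl
    · intro p _ hp
      rw [if_neg hp]; rfl
  have h3 := Nat.multinomial_spec P (al T)
  rw [hs, hp] at h3
  rw [eq_div_iff (by positivity)]
  have : ((2 ^ k * Nat.multinomial P (al T) : ℕ) : ℝ) = ((2 * k).factorial : ℝ) := by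
    exact_mod_cast h3
  rw [← this]
  push_cast
  ring

lemma comb (M k : ℕ) (hM : 2 * k ≤ M) :
    ((k : ℝ) * M / 4) ^ k ≤ ((2 * k).factorial : ℝ) / 2 ^ k * (M.choose k : ℝ) := by
  have h1 : k.factorial * (k + 1) ^ k ≤ (k + k).factorial := Nat.factorial_mul_pow_le_factorial
  have h2 := Nat.pow_sub_le_descFactorial M k
  rw [Nat.descFactorial_eq_factorial_mul_choose] at h2
  have h1' : (k.factorial : ℝ) * ((k : ℝ) + 1) ^ k ≤ ((2 * k).factorial : ℝ) := by
    rw [two_mul]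
    exact_mod_cast h1
  have h2' : ((M + 1 - k : ℕ) : ℝ) ^ k ≤ (k.factorial : ℝ) * (M.choose k : ℝ) := by
    exact_mod_cast h2
  have h3 : ((M : ℝ) / 2) ^ k ≤ (k.factorial : ℝ) * (M.choose k : ℝ) := by
    refine le_trans (pow_le_pow_left₀ (by positivity) ?_ k) h2'
    have : M ≤ 2 * (M + 1 - k) := by omega
    have h4 : (M : ℝ) ≤ 2 * ((M + 1 - k : ℕ) : ℝ) := by exact_mod_cast this
    linarith
  have h5 : ((k : ℝ)) ^ k ≤ ((k : ℝ) + 1) ^ k := pow_le_pow_left₀ (Nat.cast_nonneg _) (by linarith) k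
  have hf : (0 : ℝ) < k.factorial := by exact_mod_cast Nat.factorial_pos k
  calc ((k : ℝ) * M / 4) ^ k = (k : ℝ) ^ k * ((M : ℝ) / 2) ^ k / 2 ^ k := by
        rw [← mul_pow, ← div_pow]; congr 1; ring
    _ ≤ ((k : ℝ) + 1) ^ k * ((k.factorial : ℝ) * (M.choose k : ℝ)) / 2 ^ k := by
        gcongr
    _ = ((k.factorial : ℝ) * ((k : ℝ) + 1) ^ k) / 2 ^ k * (M.choose k : ℝ) := by ring
    _ ≤ _ := by gcongr

end Pool.Agent.H537.LX
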