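import Mathlib
import Pool.Agent.H537.LX.Low

set_option autoImplicit false

/-! # The pointwise inequality for large values of sums of Jacobi symbols -/

namespace Pool.Agent.H537.LX

open Finset Pool.Agent.W406.TW

lemma SD_abs (P : Finset ℕ) (w : ℕ → ℝ) (hw : ∀ p ∈ P, |w p| ≤ 1) (D : ℤ) :
    |SD P w (fun p => p) D| ≤ P.card := by
  unfold SD
  calc |∑ p ∈ P, w p * (jacobiSym D p : ℝ)| ≤ ∑ p ∈ P, |w p * (jacobiSym D p : ℝ)| :=
        abs_sum_le_sum_abs _ _
    _ ≤ ∑ p ∈ P, (1 : ℝ) := by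
        apply sum_le_sum
        intro p hp
        rw [abs_mul]
        have h1 : |(jacobiSym D p : ℝ)| ≤ 1 := by
          rw [← Int.cast_abs]
          exact_mod_cast jac_abs D p
        exact mul_le_one₀ (hw p hp) (abs_nonneg _) h1
    _ = P.card := by simp

/-- pointwise inequality behind the theorem on large values -/
lemma ptw (S V M : ℝ) (k : ℕ) (hV : 0 < V) (hS : |S| ≤ M) :
    S ^ (2 * k) ≤ 3 * V ^ (2 * k) + (2 * (if V ≤ S then M ^ (2 * k + 1) else 0) - S ^ (2 * k + 1)) / V := by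
  have hM : 0 ≤ M := le_trans (abs_nonneg _) hS
  have h1 : S ^ (2 * k) ≤ V ^ (2 * k) + |S| ^ (2 * k + 1) / V := by
    have e : S ^ (2 * k) = |S| ^ (2 * k) := by rw [pow_mul, pow_mul, sq_abs]
    rw [e]
    rcases le_total (|S|) V with h | h
    · have h2 : |S| ^ (2 * k) ≤ V ^ (2 * k) := pow_le_pow_left₀ (abs_nonneg _) h _
      have h3 : 0 ≤ |S| ^ (2 * k + 1) / V := by positivity
      linarith
    · have h2 : |S| ^ (2 * k) ≤ |S| ^ (2 * k + 1) / V := by
        rw [le_div_iff₀ hV, pow_succ]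
        exact mul_le_mul_of_nonneg_left h (by positivity)
      have h3 : 0 ≤ V ^ (2 * k) := by positivity
      linarith
  have h2 : |S| ^ (2 * k + 1) = 2 * (max S 0) ^ (2 * k + 1) - S ^ (2 * k + 1) := by
    rcases le_total 0 S with h | h
    · rw [abs_of_nonneg h, max_eq_left h]; ring
    · rw [abs_of_nonpos h, max_eq_right h, zero_pow (by omega), mul_zero, zero_sub,
        Odd.neg_pow ⟨k, rfl⟩]
  have h3 : (max S 0) ^ (2 * k + 1) ≤ V ^ (2 * k + 1) + (if V ≤ S then M ^ (2 * k + 1) else 0) := by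
    by_cases h : V ≤ S
    · rw [if_pos h]
      have h4 : (max S 0) ^ (2 * k + 1) ≤ M ^ (2 * k + 1) := by
        apply pow_le_pow_left₀ (le_max_right _ _)
        exact max_le (le_trans (le_abs_self _) hS) hM
      have h5 : 0 ≤ V ^ (2 * k + 1) := by positivity
      linarith
    · rw [if_neg h, add_zero]
      apply pow_le_pow_left₀ (le_max_right _ _)
      exact max_le (not_le.1 h).le hV.le
  rw [h2] at h1
  refine le_trans h1 ?_
  have h4 : (2 * (max S 0) ^ (2 * k + 1) - S ^ (2 * k + 1)) / V ≤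
      (2 * (V ^ (2 * k + 1) + (if V ≤ S then M ^ (2 * k + 1) else 0)) - S ^ (2 * k + 1)) / V := by
    apply div_le_div_of_nonneg_right _ hV.le
    linarith
  refine le_trans (add_le_add le_rfl h4) (le_of_eq ?_)
  rw [pow_succ V (2 * k)]
  field_simp
  ring

end Pool.Agent.H537.LX
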