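import Mathlib
import Pool.Agent.H537.LX.Low

set_option autoImplicit false

/-! # Sums of Jacobi symbols over the squarefree integers up to `N` -/

namespace Pool.Agent.H537.LX

open Finset Pool.Agent.W406.TW
open scoped ArithmeticFunction.Moebius ArithmeticFunction.zeta

/-- the sum of `(D | n)` over the squarefree `1 ≤ D ≤ N` -/
def Jf (N n : ℕ) : ℤ := ∑ D ∈ (Icc 1 N).filter (fun D : ℕ => Squarefree D), jacobiSym (D : ℤ) n

lemma J_Icc (N n : ℕ) : ∑ D ∈ Icc 1 N, jacobiSym (D : ℤ) n = J N n := by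
  unfold J
  symm
  apply sum_bij (fun (i : ℕ) _ => 1 + i)
  · intro i hi
    rw [mem_range] at hi
    rw [mem_Icc]
    omega
  · intro i _ j _ h
    omega
  · intro D hD
    rw [mem_Icc] at hD
    exact ⟨D - 1, by rw [mem_range]; omega, by omega⟩
  · intro i _
    push_cast
    rfl

lemma sq_dvd_iff {a b f : ℕ} (ha : Squarefree a) (ha0 : 0 < a) (hb : 0 < b) : f ^ 2 ∣ b ^ 2 * a ↔ f ∣ b := by
  constructor
  · intro h
    have hn0 : b ^ 2 * a ≠ 0 := by positivity
    have hf0 : f ≠ 0 := by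
      rintro rfl
      rw [zero_pow (by norm_num)] at h
      exact hn0 (Nat.eq_zero_of_zero_dvd h)
    rw [← Nat.factorization_le_iff_dvd hf0 hb.ne']
    intro p
    have h1 := (Nat.factorization_le_iff_dvd (pow_ne_zero 2 hf0) hn0).2 h p
    rw [Nat.factorization_mul (by positivity) ha0.ne', Nat.factorization_pow, Nat.factorization_pow] at h1
    simp only [Finsupp.add_apply, Finsupp.smul_apply, smul_eq_mul] at h1
    have h2 := ha.natFactorization_le_one p
    omega
  · intro h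
    exact Dvd.dvd.mul_right (pow_dvd_pow_of_dvd h 2) a

lemma ind_sqf (D K : ℕ) (hD : 1 ≤ D) (hK : ∀ f : ℕ, f ^ 2 ∣ D → f ≤ K) :
    ∑ f ∈ (Icc 1 K).filter (fun f => f ^ 2 ∣ D), μ f = if Squarefree D then 1 else 0 := by
  obtain ⟨a, b, ha, hb, hab, hsq⟩ := Nat.sq_mul_squarefree_of_pos hD
  have h1 : (Icc 1 K).filter (fun f => f ^ 2 ∣ D) = b.divisors := by
    ext f
    rw [mem_filter, mem_Icc, Nat.mem_divisors, ← hab, sq_dvd_iff hsq ha hb]
    constructor
    · rintro ⟨_, h⟩; exact ⟨h, hb.ne'⟩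
    · rintro ⟨h, _⟩
      refine ⟨⟨Nat.pos_of_dvd_of_pos h hb, hK f ?_⟩, h⟩
      rw [← hab, sq_dvd_iff hsq ha hb]
      exact h
  rw [h1]
  have h2 : ∑ f ∈ b.divisors, μ f = (((ζ * μ : ArithmeticFunction ℤ)) b) := by
    rw [ArithmeticFunction.coe_zeta_mul_apply]
  rw [h2, ArithmeticFunction.coe_zeta_mul_moebius, ArithmeticFunction.one_apply]
  by_cases hb1 : b = 1
  · rw [if_pos hb1, if_pos]
    rw [← hab, hb1, one_pow, one_mul]
    exact hsq
  · rw [if_neg hb1, if_neg]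
    intro h
    have : b * b ∣ D := by rw [← hab, sq]; exact Dvd.intro _ rfl
    exact hb1 (Nat.isUnit_iff.1 (h b this))

lemma Jf_le {n : ℕ} (hn : Odd n) (h : ¬ IsSquare n) (N : ℕ) : |Jf N n| ≤ (Nat.sqrt N : ℤ) * n := by
  classical
  have h1 : Jf N n = ∑ f ∈ Icc 1 (Nat.sqrt N), μ f *
      ∑ D ∈ (Icc 1 N).filter (fun D => f ^ 2 ∣ D), jacobiSym (D : ℤ) n := by
    unfold Jf
    rw [sum_filter]
    have e1 : ∀ D ∈ Icc 1 N, (if Squarefree D then jacobiSym (D : ℤ) n else 0) =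
        ∑ f ∈ Icc 1 (Nat.sqrt N), if f ^ 2 ∣ D then μ f * jacobiSym (D : ℤ) n else 0 := by
      intro D hD
      rw [mem_Icc] at hD
      rw [← sum_filter, ← sum_mul, ind_sqf D (Nat.sqrt N) hD.1]
      · split_ifs <;> simp
      · intro f hf
        rw [Nat.le_sqrt']
        exact le_trans (Nat.le_of_dvd hD.1 hf) hD.2
    rw [sum_congr rfl e1, sum_comm]
    refine sum_congr rfl fun f _ => ?_
    rw [mul_sum, sum_filter]
  have h2 : ∀ f ∈ Icc 1 (Nat.sqrt N), |μ f * ∑ D ∈ (Icc 1 N).filter (fun D => f ^ 2 ∣ D), jacobiSym (D : ℤ) n| ≤ n := by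
    intro f hf
    rw [mem_Icc] at hf
    have hf0 : 0 < f ^ 2 := by
      have : 0 < f := hf.1
      positivity
    have e2 : ∑ D ∈ (Icc 1 N).filter (fun D => f ^ 2 ∣ D), jacobiSym (D : ℤ) n =
        jacobiSym ((f ^ 2 : ℕ) : ℤ) n * J (N / f ^ 2) n := by
      rw [← J_Icc, mul_sum]
      symm
      apply sum_bij (fun (D' : ℕ) _ => f ^ 2 * D')
      · intro D' hD'
        rw [mem_Icc] at hD'
        rw [mem_filter, mem_Icc]
        refine ⟨⟨Nat.mul_pos hf0 hD'.1, ?_⟩, Dvd.intro _ rfl⟩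
        calc f ^ 2 * D' ≤ f ^ 2 * (N / f ^ 2) := Nat.mul_le_mul_left _ hD'.2
          _ ≤ N := Nat.mul_div_le N (f ^ 2)
      · intro a _ b _ hab
        exact Nat.eq_of_mul_eq_mul_left hf0 hab
      · intro D hD
        rw [mem_filter, mem_Icc] at hD
        obtain ⟨⟨hD1, hD2⟩, c, rfl⟩ := hD
        refine ⟨c, ?_, rfl⟩
        rw [mem_Icc]
        constructor
        · by_contra hc
          have : c = 0 := by omega
          rw [this, mul_zero] at hD1
          omega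
        · rw [Nat.le_div_iff_mul_le hf0, mul_comm]
          exact hD2
      · intro D' _
        rw [← jacobiSym.mul_left]
        push_cast
        rfl
    rw [e2, abs_mul, abs_mul]
    have h3 := J_le hn h (N / f ^ 2)
    have h4 := jac_abs ((f ^ 2 : ℕ) : ℤ) n
    have h5 : |μ f| ≤ 1 := ArithmeticFunction.abs_moebius_le_one
    calc |μ f| * (|jacobiSym ((f ^ 2 : ℕ) : ℤ) n| * |J (N / f ^ 2) n|) ≤ 1 * (1 * (n : ℤ)) := by
          apply mul_le_mul h5 _ (by positivity) (by norm_num)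
          exact mul_le_mul h4 h3 (abs_nonneg _) (by norm_num)
      _ = n := by ring
  rw [h1]
  calc |∑ f ∈ Icc 1 (Nat.sqrt N), μ f * ∑ D ∈ (Icc 1 N).filter (fun D => f ^ 2 ∣ D), jacobiSym (D : ℤ) n|
      ≤ ∑ f ∈ Icc 1 (Nat.sqrt N), |μ f * ∑ D ∈ (Icc 1 N).filter (fun D => f ^ 2 ∣ D), jacobiSym (D : ℤ) n| :=
        abs_sum_le_sum_abs _ _
    _ ≤ ∑ f ∈ Icc 1 (Nat.sqrt N), (n : ℤ) := sum_le_sum h2
    _ = (Nat.sqrt N : ℤ) * n := by rw [sum_const, Nat.card_Icc]; simp

lemma sum_inv_sq (s : ℕ) : ∑ b ∈ Icc 2 s, (1 : ℝ) / (b : ℝ) ^ 2 ≤ 3 / 4 := by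
  have h : ∀ s : ℕ, 2 ≤ s → ∑ b ∈ Icc 2 s, (1 : ℝ) / (b : ℝ) ^ 2 ≤ 3 / 4 - 1 / s := by
    intro s hs
    induction s, hs using Nat.le_induction with
    | base => norm_num [Icc_self]
    | succ s hs ih =>
      rw [Finset.sum_Icc_succ_top (by omega)]
      have hs0 : (0 : ℝ) < s := by
        have : 0 < s := by omega
        exact_mod_cast this
      have e : (1 : ℝ) / ((s + 1 : ℕ) : ℝ) ^ 2 ≤ 1 / s - 1 / ((s + 1 : ℕ) : ℝ) := by
        push_cast
        rw [div_sub_div _ _ hs0.ne' (by positivity)]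
        rw [div_le_div_iff₀ (by positivity) (by positivity)]
        nlinarith
      linarith
  rcases Nat.lt_or_ge s 2 with h2 | h2
  · rw [Icc_eq_empty (by omega), sum_empty]; norm_num
  · refine le_trans (h s h2) ?_
    have : (0 : ℝ) ≤ 1 / s := by positivity
    linarith

lemma cop_low (N n : ℕ) (hn0 : n ≠ 0) :
    (N / n) * n.totient ≤ ((Icc 1 N).filter (fun i => n.Coprime i)).card := by
  have hn : 0 < n := Nat.pos_of_ne_zero hn0
  -- blocks `Ico (q n) (q n + n)` shifted: `Icc 1 (q n)`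
  have h : ∀ q : ℕ, ((Icc 1 (q * n)).filter (fun i => n.Coprime i)).card = q * n.totient := by
    intro q
    induction q with
    | zero => simp
    | succ q ih =>
      have h1 : Icc 1 ((q + 1) * n) = Icc 1 (q * n) ∪ Ico (q * n + 1) (q * n + 1 + n) := by
        ext i
        simp only [mem_Icc, mem_union, mem_Ico]
        have : (q + 1) * n = q * n + n := by ring
        omega
      have hd : Disjoint (Icc 1 (q * n)) (Ico (q * n + 1) (q * n + 1 + n)) := by
        rw [disjoint_left]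
        intro i hi hi'
        rw [mem_Icc] at hi
        rw [mem_Ico] at hi'
        omega
      rw [h1, filter_union, card_union_of_disjoint (disjoint_filter_filter hd), ih,
        Nat.filter_coprime_Ico_eq_totient]
      ring
  rw [← h]
  apply card_le_card
  apply filter_subset_filter
  apply Icc_subset_Icc_right
  exact Nat.div_mul_le_self N n

/-- the sum over the squarefree integers for a square modulus -/
lemma Jf_sq (N n : ℕ) (hn0 : n ≠ 0) (hnN : 8 * n ≤ Nat.sqrt N) :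
    (N : ℝ) / 8 * ((n.totient : ℝ) / n) ≤ (Jf N (n ^ 2) : ℝ) := by
  classical
  have : NeZero n := ⟨hn0⟩
  have hn : 0 < n := Nat.pos_of_ne_zero hn0
  set s := Nat.sqrt N with hs
  have hss : s * s ≤ N := Nat.sqrt_le N
  set T := (Icc 1 N).filter (fun D : ℕ => Squarefree D ∧ n.Coprime D) with hT
  have hJ : (Jf N (n ^ 2) : ℤ) = (T.card : ℤ) := by
    unfold Jf
    rw [hT, card_filter, sum_filter]
    push_cast
    refine sum_congr rfl fun D _ => ?_
    by_cases h1 : Squarefree D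
    · rw [if_pos h1, jacobiSym.pow_right]
      by_cases h : n.Coprime D
      · rw [if_pos ⟨h1, h⟩]
        apply jacobiSym.sq_one
        rw [Int.gcd_natCast_natCast]
        exact h.symm
      · rw [if_neg (fun hh => h hh.2)]
        have : jacobiSym (D : ℤ) n = 0 := by
          apply jacobiSym.eq_zero_iff_not_coprime.2
          intro h'
          rw [Int.gcd_natCast_natCast] at h'
          exact h (Nat.Coprime.symm h')
        rw [this]; norm_num
    · rw [if_neg h1, if_neg (fun hh => h1 hh.1)]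
  set c : ℕ → ℕ := fun M => ((Icc 1 M).filter (fun i => n.Coprime i)).card with hc
  have hup : ∀ M, c M ≤ n.totient * (M / n + 1) := by
    intro M
    have h1 := Nat.Ico_filter_coprime_le 1 M hn0
    have h2 : Icc 1 M = Ico 1 (1 + M) := by
      ext i; simp only [mem_Icc, mem_Ico]; omega
    rw [hc]
    simp only
    rw [h2]
    exact h1
  -- inclusion
  have hcover : c N ≤ T.card + ∑ b ∈ Icc 2 s, c (N / b ^ 2) := by
    have hsub : (Icc 1 N).filter (fun i => n.Coprime i) ⊆ T ∪ (Icc 2 s).biUnion (fun b =>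
        ((Icc 1 (N / b ^ 2)).filter (fun i => n.Coprime i)).image (fun i => b ^ 2 * i)) := by
      intro D hD
      obtain ⟨hD1, hD2⟩ := mem_filter.1 hD
      rw [mem_union]
      by_cases hsq : Squarefree D
      · left; exact mem_filter.2 ⟨hD1, hsq, hD2⟩
      · right
        rw [mem_Icc] at hD1
        obtain ⟨a, b, ha, hb, hab, hsqa⟩ := Nat.sq_mul_squarefree_of_pos hD1.1
        have hb2 : 2 ≤ b := by
          by_contra hlt
          have hb1 : b = 1 := by omega
          rw [hb1, one_pow, one_mul] at hab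
          rw [hab] at hsqa
          exact hsq hsqa
        have hbN : b ^ 2 ≤ N := by
          refine le_trans ?_ hD1.2
          rw [← hab]
          exact Nat.le_mul_of_pos_right _ ha
        refine mem_biUnion.2 ⟨b, mem_Icc.2 ⟨hb2, Nat.le_sqrt'.2 hbN⟩, mem_image.2 ⟨a, mem_filter.2
          ⟨mem_Icc.2 ⟨ha, ?_⟩, ?_⟩, hab⟩⟩
        · rw [Nat.le_div_iff_mul_le (by positivity), mul_comm, hab]
          exact hD1.2
        · exact Nat.Coprime.coprime_dvd_right (Dvd.intro_left _ hab) hD2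
    calc c N ≤ (T ∪ (Icc 2 s).biUnion (fun b =>
        ((Icc 1 (N / b ^ 2)).filter (fun i => n.Coprime i)).image (fun i => b ^ 2 * i))).card :=
          card_le_card hsub
      _ ≤ _ := card_union_le _ _
      _ ≤ T.card + ∑ b ∈ Icc 2 s, c (N / b ^ 2) := by
          apply Nat.add_le_add_left
          refine le_trans card_biUnion_le ?_
          exact sum_le_sum fun b _ => card_image_le
  have hlow := cop_low N n hn0
  -- real inequalities
  have hn1 : (0 : ℝ) < n := by exact_mod_cast hn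
  set φ : ℝ := (n.totient : ℝ) with hφ
  have hφ0 : 0 ≤ φ := Nat.cast_nonneg _
  have hN0 : (0 : ℝ) ≤ N := Nat.cast_nonneg _
  have hlow' : ((N : ℝ) / n - 1) * φ ≤ (c N : ℝ) := by
    have h1 : (N : ℝ) / n - 1 ≤ ((N / n : ℕ) : ℝ) := by
      have h4 : N < (N / n + 1) * n := by
        have := Nat.div_add_mod N n
        have h5 := Nat.mod_lt N hn
        calc N = n * (N / n) + N % n := this.symm
          _ < n * (N / n) + n := by omega
          _ = _ := by ring
      have h5 : (N : ℝ) < (((N / n : ℕ) : ℝ) + 1) * n := by exact_mod_cast h4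
      have h6 : (N : ℝ) / n < ((N / n : ℕ) : ℝ) + 1 := by rwa [div_lt_iff₀ hn1]
      linarith
    calc ((N : ℝ) / n - 1) * φ ≤ ((N / n : ℕ) : ℝ) * φ := mul_le_mul_of_nonneg_right h1 hφ0
      _ = (((N / n) * n.totient : ℕ) : ℝ) := by push_cast; rfl
      _ ≤ (c N : ℝ) := by exact_mod_cast hlow
  have hup' : ∀ b ∈ Icc 2 s, (c (N / b ^ 2) : ℝ) ≤ φ * ((N : ℝ) / n * (1 / (b : ℝ) ^ 2) + 1) := by
    intro b _
    have h1 := hup (N / b ^ 2)
    have h2 : (c (N / b ^ 2) : ℝ) ≤ φ * (((N / b ^ 2 / n : ℕ) : ℝ) + 1) := by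
      rw [hφ]
      exact_mod_cast h1
    refine le_trans h2 ?_
    apply mul_le_mul_of_nonneg_left _ hφ0
    have h3 : ((N / b ^ 2 / n : ℕ) : ℝ) ≤ ((N / b ^ 2 : ℕ) : ℝ) / n := Nat.cast_div_le
    have h4 : ((N / b ^ 2 : ℕ) : ℝ) ≤ (N : ℝ) / ((b ^ 2 : ℕ) : ℝ) := Nat.cast_div_le
    have h5 : ((N / b ^ 2 : ℕ) : ℝ) / n ≤ (N : ℝ) / ((b ^ 2 : ℕ) : ℝ) / n :=
      div_le_div_of_nonneg_right h4 hn1.le
    have h6 : (N : ℝ) / ((b ^ 2 : ℕ) : ℝ) / n = (N : ℝ) / n * (1 / (b : ℝ) ^ 2) := by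
      push_cast
      ring
    linarith
  have hsum : ∑ b ∈ Icc 2 s, (c (N / b ^ 2) : ℝ) ≤ φ * ((N : ℝ) / n * (3 / 4) + ((s : ℝ) - 1)) := by
    have hs1 : 1 ≤ s := by omega
    calc ∑ b ∈ Icc 2 s, (c (N / b ^ 2) : ℝ) ≤ ∑ b ∈ Icc 2 s, φ * ((N : ℝ) / n * (1 / (b : ℝ) ^ 2) + 1) :=
          sum_le_sum hup'
      _ = φ * ((N : ℝ) / n * (∑ b ∈ Icc 2 s, 1 / (b : ℝ) ^ 2) + ((s : ℝ) - 1)) := by
          rw [← mul_sum, sum_add_distrib, ← mul_sum, sum_const, Nat.card_Icc, nsmul_eq_mul, mul_one]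
          congr 2
          have : s + 1 - 2 = s - 1 := by omega
          rw [this]
          push_cast [Nat.cast_sub hs1]
          ring
      _ ≤ _ := by
          apply mul_le_mul_of_nonneg_left _ hφ0
          have := mul_le_mul_of_nonneg_left (sum_inv_sq s) (by positivity : 0 ≤ (N : ℝ) / n)
          linarith
  have hcover' : (c N : ℝ) ≤ (T.card : ℝ) + ∑ b ∈ Icc 2 s, (c (N / b ^ 2) : ℝ) := by exact_mod_cast hcover
  have hsN : (s : ℝ) ≤ (N : ℝ) / n / 8 := by
    rw [div_div, le_div_iff₀ (by positivity)]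
    have h1 : s * (n * 8) ≤ N := by
      calc s * (n * 8) = s * (8 * n) := by ring
        _ ≤ s * s := Nat.mul_le_mul_left _ hnN
        _ ≤ N := hss
    exact_mod_cast h1
  have hJ' : (Jf N (n ^ 2) : ℝ) = (T.card : ℝ) := by exact_mod_cast hJ
  rw [hJ']
  have e : (N : ℝ) / 8 * (φ / n) = φ * ((N : ℝ) / n / 8) := by ring
  rw [e]
  have h7 : φ * ((N : ℝ) / n / 8) ≤ ((N : ℝ) / n - 1) * φ - φ * ((N : ℝ) / n * (3 / 4) + ((s : ℝ) - 1)) := by
    have h8 : (N : ℝ) / n / 8 ≤ ((N : ℝ) / n - 1) - ((N : ℝ) / n * (3 / 4) + ((s : ℝ) - 1)) := by linarith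
    calc φ * ((N : ℝ) / n / 8) ≤ φ * (((N : ℝ) / n - 1) - ((N : ℝ) / n * (3 / 4) + ((s : ℝ) - 1))) :=
          mul_le_mul_of_nonneg_left h8 hφ0
      _ = _ := by ring
  linarith

end Pool.Agent.H537.LX
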