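import Mathlib
import Pool.Agent.H537.LX.Sf
import Pool.Agent.H537.LX.Ext

set_option autoImplicit false

/-! # Large values of sums of Jacobi symbols `(D | p)` over a set of primes, for squarefree `D` -/

namespace Pool.Agent.H537.LX

open Finset Pool.Agent.W406.TW

/-- the squarefree `1 ≤ D ≤ N` -/
def sqf (N : ℕ) : Finset ℕ := (Icc 1 N).filter (fun D : ℕ => Squarefree D)

lemma sqf_card (N : ℕ) : (sqf N).card ≤ N := by
  unfold sqf
  refine le_trans (card_filter_le _ _) ?_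
  rw [Nat.card_Icc]; omega

/-- the expansion of a moment -/
lemma expand_mom' (P : Finset ℕ) (hP : ∀ p ∈ P, p.Prime) (w : ℕ → ℝ) (N n : ℕ) :
    ∑ D ∈ sqf N, SD P w (fun p => p) (D : ℤ) ^ n =
      ∑ a ∈ piAntidiag P n, (Nat.multinomial P a : ℝ) * ((∏ p ∈ P, w p ^ a p) * (Jf N (nn P a) : ℝ)) := by
  have h : ∀ D ∈ sqf N, SD P w (fun p => p) (D : ℤ) ^ n =
      ∑ a ∈ piAntidiag P n, (Nat.multinomial P a : ℝ) * ((∏ p ∈ P, w p ^ a p) *
        (jacobiSym (D : ℤ) (nn P a) : ℝ)) := by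
    intro D _
    unfold SD
    rw [sum_pow_eq_sum_piAntidiag]
    refine sum_congr rfl fun a _ => ?_
    rw [jac_nn P hP]
    congr 1
    push_cast
    rw [← prod_mul_distrib]
    refine prod_congr rfl fun p _ => ?_
    rw [mul_pow]
  rw [sum_congr rfl h, sum_comm]
  refine sum_congr rfl fun a _ => ?_
  rw [← mul_sum, ← mul_sum]
  unfold Jf sqf
  push_cast
  rfl

/-- the terms with an odd exponent -/
lemma off' (P : Finset ℕ) (hP : ∀ p ∈ P, p.Prime ∧ p ≠ 2) (w : ℕ → ℝ) (hw : ∀ p ∈ P, |w p| ≤ 1)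
    (N n : ℕ) (F : Finset (ℕ → ℕ)) (hF : F ⊆ piAntidiag P n) (hodd : ∀ a ∈ F, ¬ ∀ p ∈ P, Even (a p)) :
    |∑ a ∈ F, (Nat.multinomial P a : ℝ) * ((∏ p ∈ P, w p ^ a p) * (Jf N (nn P a) : ℝ))| ≤
      (Nat.sqrt N : ℝ) * (∑ p ∈ P, (p : ℝ)) ^ n := by
  rw [sum_pow_eq_sum_piAntidiag, mul_sum]
  calc |∑ a ∈ F, (Nat.multinomial P a : ℝ) * ((∏ p ∈ P, w p ^ a p) * (Jf N (nn P a) : ℝ))|
      ≤ ∑ a ∈ F, |(Nat.multinomial P a : ℝ) * ((∏ p ∈ P, w p ^ a p) * (Jf N (nn P a) : ℝ))| :=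
        abs_sum_le_sum_abs _ _
    _ ≤ ∑ a ∈ F, (Nat.sqrt N : ℝ) * ((Nat.multinomial P a : ℝ) * ∏ p ∈ P, (p : ℝ) ^ a p) := by
        apply sum_le_sum
        intro a ha
        rw [abs_mul, abs_mul, abs_of_nonneg (Nat.cast_nonneg (Nat.multinomial P a)),
          mul_left_comm (Nat.sqrt N : ℝ)]
        apply mul_le_mul_of_nonneg_left _ (Nat.cast_nonneg _)
        have h1 : |∏ p ∈ P, w p ^ a p| ≤ 1 := by
          rw [abs_prod]
          apply prod_le_one (fun p _ => abs_nonneg _)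
          intro p hp
          rw [abs_pow]
          exact pow_le_one₀ (abs_nonneg _) (hw p hp)
        have h2 : |(Jf N (nn P a) : ℝ)| ≤ (Nat.sqrt N : ℝ) * ∏ p ∈ P, (p : ℝ) ^ a p := by
          rw [← Int.cast_abs]
          have h3 := Jf_le (nn_odd P hP a) (nn_notsq P (fun p hp => (hP p hp).1) a (hodd a ha)) N
          have h4 : ((|Jf N (nn P a)| : ℤ) : ℝ) ≤ (Nat.sqrt N : ℝ) * ((nn P a : ℕ) : ℝ) := by exact_mod_cast h3
          refine le_trans h4 (le_of_eq ?_)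
          unfold nn
          push_cast
          rfl
        calc |∏ p ∈ P, w p ^ a p| * |(Jf N (nn P a) : ℝ)| ≤ 1 * |(Jf N (nn P a) : ℝ)| :=
              mul_le_mul_of_nonneg_right h1 (abs_nonneg _)
          _ ≤ _ := by rw [one_mul]; exact h2
    _ ≤ ∑ a ∈ piAntidiag P n, (Nat.sqrt N : ℝ) * ((Nat.multinomial P a : ℝ) * ∏ p ∈ P, (p : ℝ) ^ a p) := by
        apply sum_le_sum_of_subset_of_nonneg hF
        intro a _ _
        positivity

/-- odd moments are small -/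
lemma odd_mom' (P : Finset ℕ) (hP : ∀ p ∈ P, p.Prime ∧ p ≠ 2) (w : ℕ → ℝ) (hw : ∀ p ∈ P, |w p| ≤ 1)
    (N k : ℕ) :
    |∑ D ∈ sqf N, SD P w (fun p => p) (D : ℤ) ^ (2 * k + 1)| ≤
      (Nat.sqrt N : ℝ) * (∑ p ∈ P, (p : ℝ)) ^ (2 * k + 1) := by
  rw [expand_mom' P (fun p hp => (hP p hp).1)]
  apply off' P hP w hw N _ _ (Subset.refl _)
  intro a ha hev
  rw [mem_piAntidiag] at ha
  have h1 : Even (∑ p ∈ P, a p) := Finset.even_sum _ hev
  rw [ha.1] at h1
  exact absurd h1 (by rw [Nat.not_even_iff_odd]; exact ⟨k, rfl⟩)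

/-- even moments are large -/
lemma even_mom' (P : Finset ℕ) (hP : ∀ p ∈ P, p.Prime ∧ p ≠ 2) (w : ℕ → ℝ)
    (hw : ∀ p ∈ P, w p = 1 ∨ w p = -1) (N x k : ℕ) (hx : ∀ p ∈ P, p ≤ x) (hM : 2 * k ≤ P.card)
    (hN : 8 * x ^ k ≤ Nat.sqrt N) :
    (N : ℝ) / 8 * ((k : ℝ) * P.card / 6) ^ k - (Nat.sqrt N : ℝ) * (∑ p ∈ P, (p : ℝ)) ^ (2 * k) ≤
      ∑ D ∈ sqf N, SD P w (fun p => p) (D : ℤ) ^ (2 * k) := by
  classical
  have hPp : ∀ p ∈ P, p.Prime := fun p hp => (hP p hp).1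
  have hw1 : ∀ p ∈ P, |w p| ≤ 1 := by
    intro p hp
    rcases hw p hp with h | h <;> rw [h] <;> norm_num
  rw [expand_mom' P hPp]
  rw [← sum_filter_add_sum_filter_not (piAntidiag P (2 * k)) (fun a => ∀ p ∈ P, Even (a p))]
  have hoff := off' P hP w hw1 N (2 * k) ((piAntidiag P (2 * k)).filter (fun a => ¬ ∀ p ∈ P, Even (a p)))
    (filter_subset _ _) (fun a ha => (mem_filter.1 ha).2)
  have h1 := (abs_le.1 hoff).1
  -- the diagonal
  have hdiag : (N : ℝ) / 8 * ((k : ℝ) * P.card / 6) ^ k ≤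
      ∑ a ∈ (piAntidiag P (2 * k)).filter (fun a => ∀ p ∈ P, Even (a p)),
        (Nat.multinomial P a : ℝ) * ((∏ p ∈ P, w p ^ a p) * (Jf N (nn P a) : ℝ)) := by
    have hwa : ∀ a : ℕ → ℕ, (∀ p ∈ P, Even (a p)) → ∏ p ∈ P, w p ^ a p = 1 := by
      intro a ha
      apply prod_eq_one
      intro p hp
      rcases hw p hp with h | h <;> rw [h]
      · exact one_pow _
      · exact (ha p hp).neg_one_pow
    have hJnn : ∀ a : ℕ → ℕ, (∀ p ∈ P, Even (a p)) → 0 ≤ (Jf N (nn P a) : ℝ) := by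
      intro a ha
      have : 0 ≤ Jf N (nn P a) := by
        unfold Jf
        apply sum_nonneg
        intro i _
        rw [jac_nn P hPp]
        apply prod_nonneg
        intro p hp
        exact (ha p hp).pow_nonneg _
      exact_mod_cast this
    have hsub : (powersetCard k P).image al ⊆ (piAntidiag P (2 * k)).filter (fun a => ∀ p ∈ P, Even (a p)) := by
      intro a ha
      obtain ⟨T, hT, rfl⟩ := mem_image.1 ha
      refine mem_filter.2 ⟨al_mem P T k hT, fun p _ => ?_⟩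
      unfold al
      split_ifs
      · exact even_two
      · exact Even.zero
    calc (N : ℝ) / 8 * ((k : ℝ) * P.card / 6) ^ k
        = ((k : ℝ) * P.card / 4) ^ k * ((N : ℝ) / 8 * (2 / 3) ^ k) := by
          have : (k : ℝ) * P.card / 6 = (k : ℝ) * P.card / 4 * (2 / 3) := by ring
          rw [this, mul_pow]; ring
      _ ≤ (((2 * k).factorial : ℝ) / 2 ^ k * (P.card.choose k : ℝ)) * ((N : ℝ) / 8 * (2 / 3) ^ k) :=
          mul_le_mul_of_nonneg_right (comb P.card k hM) (by positivity)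
      _ = ∑ T ∈ powersetCard k P, ((2 * k).factorial : ℝ) / 2 ^ k * ((N : ℝ) / 8 * (2 / 3) ^ k) := by
          rw [sum_const, card_powersetCard, nsmul_eq_mul]; ring
      _ ≤ ∑ T ∈ powersetCard k P, (Nat.multinomial P (al T) : ℝ) *
            ((∏ p ∈ P, w p ^ al T p) * (Jf N (nn P (al T)) : ℝ)) := by
          apply sum_le_sum
          intro T hT
          obtain ⟨hT1, hT2⟩ := mem_powersetCard.1 hT
          have hev := (mem_filter.1 (hsub (mem_image_of_mem al hT))).2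
          rw [hwa _ hev, one_mul, mult_al P T k hT, nn_al P T hT1]
          apply mul_le_mul_of_nonneg_left _ (by positivity)
          have hn0 : ∏ p ∈ T, p ≠ 0 := prod_ne_zero_iff.2 fun p hp => (hPp p (hT1 hp)).ne_zero
          have hnN : 8 * ∏ p ∈ T, p ≤ Nat.sqrt N := by
            refine le_trans (Nat.mul_le_mul_left 8 ?_) hN
            rw [← hT2, ← prod_const]
            exact prod_le_prod' fun p hp => hx p (hT1 hp)
          refine le_trans ?_ (Jf_sq N _ hn0 hnN)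
          apply mul_le_mul_of_nonneg_left _ (by positivity)
          have := totient_prod T fun p hp => hP p (hT1 hp)
          rw [hT2] at this
          exact this
      _ = ∑ a ∈ (powersetCard k P).image al, (Nat.multinomial P a : ℝ) *
            ((∏ p ∈ P, w p ^ a p) * (Jf N (nn P a) : ℝ)) := by
          rw [sum_image]
          intro T _ T' _ h
          exact al_inj h
      _ ≤ _ := by
          apply sum_le_sum_of_subset_of_nonneg hsub
          intro a ha _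
          have hev := (mem_filter.1 ha).2
          rw [hwa a hev, one_mul]
          exact mul_nonneg (Nat.cast_nonneg _) (hJnn a hev)
  linarith

theorem extreme' (P : Finset ℕ) (w : ℕ → ℝ) (N x k : ℕ) (hk : 1 ≤ k) (hM : 2 * k ≤ P.card)
    (hP : ∀ p ∈ P, p.Prime ∧ p ≠ 2) (hx : ∀ p ∈ P, p ≤ x) (hw : ∀ p ∈ P, w p = 1 ∨ w p = -1)
    (hN : x ^ (24 * k) ≤ N) :
    (N : ℝ) ≤ (x : ℝ) ^ (9 * k) * (((sqf N).filter (fun D : ℕ =>
      √((k : ℝ) * P.card) / 17 ≤ SD P w (fun p => p) (D : ℤ))).card : ℝ) := by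
  classical
  have hw1 : ∀ p ∈ P, |w p| ≤ 1 := by
    intro p hp
    rcases hw p hp with h | h <;> rw [h] <;> norm_num
  have hp3 : ∀ p ∈ P, 3 ≤ p := by
    intro p hp
    have := (hP p hp).1.two_le
    have := (hP p hp).2
    omega
  -- size of `x`
  have hMx : P.card + 2 ≤ x := by
    have h1 : P.card ≤ (Icc 3 x).card := card_le_card fun p hp => mem_Icc.2 ⟨hp3 p hp, hx p hp⟩
    rw [Nat.card_Icc] at h1
    omega
  have hx4 : 4 ≤ x := by omega
  have hx4' : (4 : ℝ) ≤ x := by exact_mod_cast hx4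
  have hx0 : (0 : ℝ) < x := by linarith
  have hx1 : (1 : ℝ) ≤ x := by linarith
  set s := Nat.sqrt N with hs
  have hsN : s * s ≤ N := Nat.sqrt_le N
  have hsx : x ^ (12 * k) ≤ s := by
    rw [Nat.le_sqrt, ← pow_add]
    refine le_trans (le_of_eq ?_) hN
    congr 1; ring
  have hs8 : 8 * x ^ k ≤ s := by
    refine le_trans ?_ hsx
    calc 8 * x ^ k ≤ x ^ 2 * x ^ k := by
          apply Nat.mul_le_mul_right
          nlinarith
      _ = x ^ (k + 2) := by ring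
      _ ≤ x ^ (12 * k) := Nat.pow_le_pow_right (by omega) (by omega)
  set M : ℝ := (P.card : ℝ) with hMdef
  have hM2 : 2 * (k : ℝ) ≤ M := by rw [hMdef]; exact_mod_cast hM
  have hk1 : (1 : ℝ) ≤ k := by exact_mod_cast hk
  have hMx' : M ≤ x := by
    have : P.card ≤ x := by omega
    rw [hMdef]
    exact_mod_cast this
  have hM0 : 0 < M := by linarith
  have hkM : 2 ≤ (k : ℝ) * M := by nlinarith
  set V : ℝ := √((k : ℝ) * M) / 17 with hV
  have hV5 : 1 / 13 ≤ V := by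
    have : (17 / 13 : ℝ) ≤ √((k : ℝ) * M) := by
      apply Real.le_sqrt_of_sq_le
      norm_num
      linarith
    rw [hV]
    linarith
  have hV0 : 0 < V := by linarith
  have hVsq : V ^ 2 = (k : ℝ) * M / 289 := by
    rw [hV, div_pow, Real.sq_sqrt (by positivity)]
    norm_num
  set Q : ℝ := ∑ p ∈ P, (p : ℝ) with hQ
  have hQx : Q ≤ (x : ℝ) ^ 2 := by
    calc Q ≤ ∑ p ∈ P, (x : ℝ) := sum_le_sum fun p hp => by exact_mod_cast hx p hp
      _ = M * x := by rw [sum_const, nsmul_eq_mul]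
      _ ≤ x * x := mul_le_mul_of_nonneg_right hMx' hx0.le
      _ = _ := by ring
  have hQ1 : 1 ≤ Q := by
    have hne : P.Nonempty := by
      rw [← card_pos]; omega
    obtain ⟨q, hq⟩ := hne
    calc (1 : ℝ) ≤ (q : ℝ) := by
          have := hp3 q hq
          exact_mod_cast (by omega : 1 ≤ q)
      _ ≤ Q := single_le_sum (f := fun p : ℕ => (p : ℝ)) (fun p _ => Nat.cast_nonneg p) hq
  set S : ℕ → ℝ := fun D => SD P w (fun p => p) (D : ℤ) with hS
  set G := (sqf N).filter (fun D : ℕ => V ≤ S D) with hG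
  set g : ℝ := (G.card : ℝ) with hg
  have hg0 : 0 ≤ g := Nat.cast_nonneg _
  set σ : ℝ := (s : ℝ) with hσ
  have hσ0 : 0 ≤ σ := Nat.cast_nonneg _
  have hlow := even_mom' P hP w hw N x k hx hM hs8
  have hodd := (abs_le.1 (odd_mom' P hP w hw1 N k)).1
  rw [← hs, ← hσ] at hlow hodd
  have hN0 : (0 : ℝ) ≤ N := Nat.cast_nonneg _
  -- sum of the pointwise inequalities
  have hsum : ∑ D ∈ sqf N, S D ^ (2 * k) ≤
      3 * N * V ^ (2 * k) + (2 * (g * M ^ (2 * k + 1)) + σ * Q ^ (2 * k + 1)) / V := by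
    calc ∑ D ∈ sqf N, S D ^ (2 * k) ≤ ∑ D ∈ sqf N, (3 * V ^ (2 * k) +
          (2 * (if V ≤ S D then M ^ (2 * k + 1) else 0) - S D ^ (2 * k + 1)) / V) :=
          sum_le_sum fun D _ => ptw (S D) V M k hV0 (SD_abs P w hw1 _)
      _ = ((sqf N).card : ℝ) * (3 * V ^ (2 * k)) +
          (2 * (g * M ^ (2 * k + 1)) - ∑ D ∈ sqf N, S D ^ (2 * k + 1)) / V := by
          rw [sum_add_distrib, sum_const, nsmul_eq_mul, ← sum_div, sum_sub_distrib, ← mul_sum,
            ← sum_filter, sum_const, nsmul_eq_mul]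
      _ ≤ _ := by
          have h1 : (2 * (g * M ^ (2 * k + 1)) - ∑ D ∈ sqf N, S D ^ (2 * k + 1)) / V ≤
              (2 * (g * M ^ (2 * k + 1)) + σ * Q ^ (2 * k + 1)) / V := by
            apply div_le_div_of_nonneg_right _ hV0.le
            linarith
          have h2 : ((sqf N).card : ℝ) * (3 * V ^ (2 * k)) ≤ (N : ℝ) * (3 * V ^ (2 * k)) := by
            apply mul_le_mul_of_nonneg_right _ (by positivity)
            exact_mod_cast sqf_card N
          linarith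
  set a : ℝ := ((k : ℝ) * M / 6) ^ k with ha
  have ha3 : (1 / 3 : ℝ) ^ k ≤ a := pow_le_pow_left₀ (by norm_num) (by linarith) k
  have ha0 : 0 < a := by positivity
  have hVk : V ^ (2 * k) ≤ 6 / 289 * a := by
    rw [pow_mul, hVsq]
    have e : (k : ℝ) * M / 289 = (6 / 289) * ((k : ℝ) * M / 6) := by ring
    rw [e, mul_pow]
    apply mul_le_mul_of_nonneg_right _ ha0.le
    calc (6 / 289 : ℝ) ^ k ≤ (6 / 289 : ℝ) ^ 1 := pow_le_pow_of_le_one (by norm_num) (by norm_num) hk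
      _ = _ := pow_one _
  have hQ0 : 0 ≤ Q := by linarith
  have hdiv : (2 * (g * M ^ (2 * k + 1)) + σ * Q ^ (2 * k + 1)) / V ≤
      13 * (2 * (g * M ^ (2 * k + 1)) + σ * Q ^ (2 * k + 1)) := by
    rw [div_le_iff₀ hV0]
    have h0 : 0 ≤ 2 * (g * M ^ (2 * k + 1)) + σ * Q ^ (2 * k + 1) := by positivity
    nlinarith
  have hQQ : σ * Q ^ (2 * k) ≤ σ * Q ^ (2 * k + 1) :=
    mul_le_mul_of_nonneg_left (pow_le_pow_right₀ hQ1 (by omega)) hσ0
  have hmain : (N : ℝ) * a / 16 ≤ 14 * (σ * Q ^ (2 * k + 1)) + 26 * (g * M ^ (2 * k + 1)) := by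
    have h1 : 3 * (N : ℝ) * V ^ (2 * k) ≤ 3 * N * (6 / 289 * a) :=
      mul_le_mul_of_nonneg_left hVk (by positivity)
    have h2 : (N : ℝ) / 8 * a - σ * Q ^ (2 * k) ≤ 3 * N * (6 / 289 * a) +
        13 * (2 * (g * M ^ (2 * k + 1)) + σ * Q ^ (2 * k + 1)) := by
      refine le_trans hlow (le_trans hsum ?_)
      linarith
    have h3 : 0 ≤ (N : ℝ) * a := by positivity
    nlinarith
  have h3k : (1 : ℝ) = (1 / 3 : ℝ) ^ k * 3 ^ k := by
    rw [← mul_pow]; norm_num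
  have hNb : (N : ℝ) ≤ 16 * 3 ^ k * (14 * (σ * Q ^ (2 * k + 1)) + 26 * (g * M ^ (2 * k + 1))) := by
    calc (N : ℝ) = N * ((1 / 3 : ℝ) ^ k * 3 ^ k) := by rw [← h3k, mul_one]
      _ ≤ N * (a * 3 ^ k) := by gcongr
      _ = 16 * 3 ^ k * (N * a / 16) := by ring
      _ ≤ _ := mul_le_mul_of_nonneg_left hmain (by positivity)
  have h3x : (3 : ℝ) ^ k ≤ (x : ℝ) ^ k := pow_le_pow_left₀ (by norm_num) (by linarith) k
  have hx44 : (1024 : ℝ) ≤ (x : ℝ) ^ 5 := by
    calc (1024 : ℝ) = 4 ^ 5 := by norm_num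
      _ ≤ _ := pow_le_pow_left₀ (by norm_num) hx4' 5
  have hQb : 16 * 3 ^ k * (14 * (σ * Q ^ (2 * k + 1))) ≤ (N : ℝ) / 2 := by
    have h1 : Q ^ (2 * k + 1) ≤ (x : ℝ) ^ (4 * k + 2) := by
      calc Q ^ (2 * k + 1) ≤ ((x : ℝ) ^ 2) ^ (2 * k + 1) := pow_le_pow_left₀ hQ0 hQx _
        _ = _ := by rw [← pow_mul]; congr 1; ring
    have h2 : 448 * ((x : ℝ) ^ k * (x : ℝ) ^ (4 * k + 2)) ≤ σ := by
      calc 448 * ((x : ℝ) ^ k * (x : ℝ) ^ (4 * k + 2)) ≤ (x : ℝ) ^ 5 * ((x : ℝ) ^ k * (x : ℝ) ^ (4 * k + 2)) := by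
            apply mul_le_mul_of_nonneg_right _ (by positivity)
            linarith
        _ = (x : ℝ) ^ (5 * k + 7) := by rw [← pow_add, ← pow_add]; congr 1; ring
        _ ≤ (x : ℝ) ^ (12 * k) := pow_le_pow_right₀ hx1 (by omega)
        _ ≤ σ := by rw [hσ]; exact_mod_cast hsx
    have h3 : σ * σ ≤ N := by rw [hσ]; exact_mod_cast hsN
    have h5 : σ * Q ^ (2 * k + 1) ≤ σ * (x : ℝ) ^ (4 * k + 2) := mul_le_mul_of_nonneg_left h1 hσ0
    have h6 : σ * (448 * ((x : ℝ) ^ k * (x : ℝ) ^ (4 * k + 2))) ≤ σ * σ := mul_le_mul_of_nonneg_left h2 hσ0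
    calc 16 * 3 ^ k * (14 * (σ * Q ^ (2 * k + 1))) ≤ 16 * (x : ℝ) ^ k * (14 * (σ * (x : ℝ) ^ (4 * k + 2))) := by
          apply mul_le_mul
          · exact mul_le_mul_of_nonneg_left h3x (by norm_num)
          · exact mul_le_mul_of_nonneg_left h5 (by norm_num)
          · exact mul_nonneg (by norm_num) (mul_nonneg hσ0 (pow_nonneg hQ0 _))
          · exact mul_nonneg (by norm_num) (pow_nonneg hx0.le _)
      _ = σ * (448 * ((x : ℝ) ^ k * (x : ℝ) ^ (4 * k + 2))) / 2 := by ring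
      _ ≤ σ * σ / 2 := by linarith
      _ ≤ _ := by linarith
  have hgb : (N : ℝ) ≤ 832 * 3 ^ k * (g * M ^ (2 * k + 1)) := by
    have : 16 * 3 ^ k * (14 * (σ * Q ^ (2 * k + 1)) + 26 * (g * M ^ (2 * k + 1))) =
        16 * 3 ^ k * (14 * (σ * Q ^ (2 * k + 1))) + 832 * 3 ^ k * (g * M ^ (2 * k + 1)) / 2 := by ring
    linarith
  calc (N : ℝ) ≤ 832 * 3 ^ k * (g * M ^ (2 * k + 1)) := hgb
    _ ≤ (x : ℝ) ^ 5 * (x : ℝ) ^ k * (g * (x : ℝ) ^ (2 * k + 1)) := by
        apply mul_le_mul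
        · exact mul_le_mul (by linarith) h3x (by positivity) (by positivity)
        · exact mul_le_mul_of_nonneg_left (pow_le_pow_left₀ hM0.le hMx' _) hg0
        · exact mul_nonneg hg0 (pow_nonneg hM0.le _)
        · exact mul_nonneg (pow_nonneg hx0.le _) (pow_nonneg hx0.le _)
    _ = (x : ℝ) ^ (3 * k + 6) * g := by
        have : (x : ℝ) ^ (3 * k + 6) = (x : ℝ) ^ 5 * (x : ℝ) ^ k * (x : ℝ) ^ (2 * k + 1) := by
          rw [← pow_add, ← pow_add]; congr 1; ring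
        rw [this]; ring
    _ ≤ (x : ℝ) ^ (9 * k) * g := by
        apply mul_le_mul_of_nonneg_right _ hg0
        exact pow_le_pow_right₀ hx1 (by omega)

end Pool.Agent.H537.LX
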