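import Mathlib
import Pool.Agent.H537.LX.Sfm
import Pool.Agent.H537.LX.Neg

set_option autoImplicit false

/-! # All patterns of signs `(D / p)` over a set of primes, for squarefree `D` -/

namespace Pool.Agent.H537.LX

open Finset Pool.Agent.W406.TW

lemma prod_three (P : Finset ℕ) (hP : ∀ p ∈ P, p.Prime ∧ p ≠ 2) : 3 ^ P.card ≤ ∏ p ∈ P, p := by
  rw [← prod_const]
  apply prod_le_prod' fun p hp => ?_
  have := (hP p hp).1.two_le
  have := (hP p hp).2
  omega

theorem pattern (P : Finset ℕ) (hP : ∀ p ∈ P, p.Prime ∧ p ≠ 2) (e : ℕ → ℤ)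
    (he : ∀ p ∈ P, e p = 1 ∨ e p = -1) (N : ℕ) (hN : 256 * (∏ p ∈ P, p) ^ 6 ≤ N) :
    (N : ℝ) ≤ 16 * 3 ^ P.card * (((sqf N).filter (fun D : ℕ =>
      ∀ p ∈ P, jacobiSym (D : ℤ) p = e p)).card : ℝ) := by
  classical
  have hPp : ∀ p ∈ P, p.Prime := fun p hp => (hP p hp).1
  set q : ℕ := ∏ p ∈ P, p with hq
  set m : ℕ := P.card with hm
  have hq0 : q ≠ 0 := prod_ne_zero_iff.2 fun p hp => (hPp p hp).ne_zero
  have h3q : 3 ^ m ≤ q := prod_three P hP
  set s := Nat.sqrt N with hs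
  have hsN : s * s ≤ N := Nat.sqrt_le N
  have hqs : 16 * q ^ 3 ≤ s := by
    rw [Nat.le_sqrt]
    refine le_trans (le_of_eq ?_) hN
    ring
  have h8q : 8 * q ≤ s := by
    refine le_trans ?_ hqs
    have : q ≤ q ^ 3 := Nat.le_self_pow (by norm_num) q
    omega
  set G := (sqf N).filter (fun D : ℕ => ∀ p ∈ P, jacobiSym (D : ℤ) p = e p) with hG
  -- the weight
  set F : ℕ → ℤ := fun D => ∏ p ∈ P, (e p * jacobiSym (D : ℤ) p + jacobiSym (D : ℤ) p ^ 2) with hF
  have hFD : ∀ D : ℕ, F D = if (∀ p ∈ P, jacobiSym (D : ℤ) p = e p) then 2 ^ m else 0 := by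
    intro D
    by_cases h : ∀ p ∈ P, jacobiSym (D : ℤ) p = e p
    · rw [if_pos h, hF]
      simp only
      rw [hm, ← prod_const]
      refine prod_congr rfl fun p hp => ?_
      rw [h p hp]
      rcases he p hp with h1 | h1 <;> rw [h1] <;> norm_num
    · rw [if_neg h]
      push Not at h
      obtain ⟨p, hp, hne⟩ := h
      apply prod_eq_zero hp
      rcases jacobiSym.trichotomy (D : ℤ) p with h1 | h1 | h1 <;> rcases he p hp with h2 | h2 <;>
        rw [h1, h2] at hne ⊢ <;> first | exact absurd rfl hne | norm_num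
  have hsumF : ∑ D ∈ sqf N, F D = 2 ^ m * (G.card : ℤ) := by
    rw [hG, card_filter]
    push_cast
    rw [mul_sum]
    refine sum_congr rfl fun D _ => ?_
    rw [hFD]
    split_ifs <;> simp
  -- the expansion
  set a : Finset ℕ → ℕ → ℕ := fun T p => if p ∈ T then 1 else 2 with ha
  have hexp : ∀ D : ℕ, F D = ∑ T ∈ P.powerset, (∏ p ∈ T, e p) * jacobiSym (D : ℤ) (nn P (a T)) := by
    intro D
    rw [hF]
    simp only
    rw [prod_add]
    refine sum_congr rfl fun T hT => ?_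
    have hTP : T ⊆ P := mem_powerset.1 hT
    rw [jac_nn P hPp, prod_mul_distrib, mul_assoc]
    congr 1
    rw [← prod_sdiff hTP, mul_comm]
    congr 1
    · refine prod_congr rfl fun p hp => ?_
      rw [ha]
      simp only
      rw [if_neg (mem_sdiff.1 hp).2]
    · refine prod_congr rfl fun p hp => ?_
      rw [ha]
      simp only
      rw [if_pos hp, pow_one]
  have hsumF2 : ∑ D ∈ sqf N, F D = ∑ T ∈ P.powerset, (∏ p ∈ T, e p) * Jf N (nn P (a T)) := by
    rw [sum_congr rfl fun D _ => hexp D, sum_comm]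
    refine sum_congr rfl fun T _ => ?_
    rw [← mul_sum]
    rfl
  have hempty : (∅ : Finset ℕ) ∈ P.powerset := empty_mem_powerset P
  have hnn0 : nn P (a ∅) = q ^ 2 := by
    unfold nn
    rw [hq, ← prod_pow]
    refine prod_congr rfl fun p _ => ?_
    rw [ha]; simp
  have hbound : ∀ T ∈ P.powerset.erase ∅, |(∏ p ∈ T, e p) * Jf N (nn P (a T))| ≤ (s : ℤ) * (q : ℤ) ^ 2 := by
    intro T hT
    obtain ⟨hT0, hTP⟩ := mem_erase.1 hT
    rw [mem_powerset] at hTP
    have hns : ¬ IsSquare (nn P (a T)) := by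
      apply nn_notsq P hPp
      intro hall
      obtain ⟨p, hp⟩ := nonempty_iff_ne_empty.2 hT0
      have := hall p (hTP hp)
      rw [ha] at this
      simp only at this
      rw [if_pos hp] at this
      exact absurd this (by decide)
    have h1 := Jf_le (nn_odd P hP (a T)) hns N
    have h2 : nn P (a T) ≤ q ^ 2 := by
      unfold nn
      rw [hq, ← prod_pow]
      apply prod_le_prod' fun p hp => ?_
      apply Nat.pow_le_pow_right (hPp p hp).pos
      rw [ha]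
      simp only
      split_ifs <;> norm_num
    have h3 : |∏ p ∈ T, e p| ≤ 1 := by
      rw [abs_prod]
      apply prod_le_one (fun p _ => abs_nonneg _)
      intro p hp
      rcases he p (hTP hp) with h | h <;> rw [h] <;> norm_num
    rw [abs_mul]
    calc |∏ p ∈ T, e p| * |Jf N (nn P (a T))| ≤ 1 * ((s : ℤ) * (nn P (a T) : ℤ)) :=
          mul_le_mul h3 h1 (abs_nonneg _) (by norm_num)
      _ = (s : ℤ) * (nn P (a T) : ℤ) := one_mul _
      _ ≤ (s : ℤ) * (q : ℤ) ^ 2 := by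
          apply mul_le_mul_of_nonneg_left _ (by positivity)
          exact_mod_cast h2
  have hrest : |∑ T ∈ P.powerset.erase ∅, (∏ p ∈ T, e p) * Jf N (nn P (a T))| ≤
      2 ^ m * ((s : ℤ) * (q : ℤ) ^ 2) := by
    calc |∑ T ∈ P.powerset.erase ∅, (∏ p ∈ T, e p) * Jf N (nn P (a T))|
        ≤ ∑ T ∈ P.powerset.erase ∅, |(∏ p ∈ T, e p) * Jf N (nn P (a T))| := abs_sum_le_sum_abs _ _
      _ ≤ ∑ T ∈ P.powerset.erase ∅, (s : ℤ) * (q : ℤ) ^ 2 := sum_le_sum hbound
      _ = ((P.powerset.erase ∅).card : ℤ) * ((s : ℤ) * (q : ℤ) ^ 2) := by rw [sum_const, nsmul_eq_mul]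
      _ ≤ 2 ^ m * ((s : ℤ) * (q : ℤ) ^ 2) := by
          apply mul_le_mul_of_nonneg_right _ (by positivity)
          have : (P.powerset.erase ∅).card ≤ 2 ^ m := by
            refine le_trans (card_le_card (erase_subset _ _)) ?_
            rw [card_powerset]
          exact_mod_cast this
  have htot : (Jf N (q ^ 2) : ℤ) ≤ 2 ^ m * (G.card : ℤ) + 2 ^ m * ((s : ℤ) * (q : ℤ) ^ 2) := by
    have h1 : 2 ^ m * (G.card : ℤ) = Jf N (q ^ 2) +
        ∑ T ∈ P.powerset.erase ∅, (∏ p ∈ T, e p) * Jf N (nn P (a T)) := by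
      rw [← hsumF, hsumF2, ← add_sum_erase _ _ hempty, prod_empty, one_mul, hnn0]
    have h2 := (abs_le.1 hrest).1
    linarith
  have hmainR : (N : ℝ) / 8 * (2 / 3 : ℝ) ^ m ≤ (Jf N (q ^ 2) : ℝ) := by
    refine le_trans ?_ (Jf_sq N q hq0 h8q)
    apply mul_le_mul_of_nonneg_left _ (by positivity)
    exact totient_prod P hP
  have htotR : (Jf N (q ^ 2) : ℝ) ≤ 2 ^ m * (G.card : ℝ) + 2 ^ m * ((s : ℝ) * (q : ℝ) ^ 2) := by
    exact_mod_cast htot
  have h2m : (0 : ℝ) < 2 ^ m := by positivity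
  have h3m : (0 : ℝ) < 3 ^ m := by positivity
  have e23 : (2 / 3 : ℝ) ^ m * 3 ^ m = 2 ^ m := by
    rw [← mul_pow]; norm_num
  have hkey : (N : ℝ) / 8 ≤ 3 ^ m * (G.card : ℝ) + 3 ^ m * ((s : ℝ) * (q : ℝ) ^ 2) := by
    have h1 : (N : ℝ) / 8 * (2 / 3 : ℝ) ^ m * 3 ^ m ≤
        (2 ^ m * (G.card : ℝ) + 2 ^ m * ((s : ℝ) * (q : ℝ) ^ 2)) * 3 ^ m :=
      mul_le_mul_of_nonneg_right (le_trans hmainR htotR) h3m.le
    have h2 : (N : ℝ) / 8 * (2 / 3 : ℝ) ^ m * 3 ^ m = 2 ^ m * ((N : ℝ) / 8) := by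
      rw [mul_assoc, e23]; ring
    have h3 : (2 ^ m * (G.card : ℝ) + 2 ^ m * ((s : ℝ) * (q : ℝ) ^ 2)) * 3 ^ m =
        2 ^ m * (3 ^ m * (G.card : ℝ) + 3 ^ m * ((s : ℝ) * (q : ℝ) ^ 2)) := by ring
    rw [h2, h3] at h1
    exact le_of_mul_le_mul_left h1 h2m
  have hsmall : 3 ^ m * ((s : ℝ) * (q : ℝ) ^ 2) ≤ (N : ℝ) / 16 := by
    have h1 : 3 ^ m * (s * q ^ 2) * 16 ≤ N := by
      calc 3 ^ m * (s * q ^ 2) * 16 ≤ q * (s * q ^ 2) * 16 := by gcongr
        _ = s * (16 * q ^ 3) := by ring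
        _ ≤ s * s := Nat.mul_le_mul_left _ hqs
        _ ≤ N := hsN
    have h2 : (3 : ℝ) ^ m * ((s : ℝ) * (q : ℝ) ^ 2) * 16 ≤ N := by exact_mod_cast h1
    linarith
  have : (N : ℝ) / 16 ≤ 3 ^ m * (G.card : ℝ) := by linarith
  linarith

/-- all patterns of traces -/
theorem traces (A B t : ℤ) (ht : t ≠ 0) (x N : ℕ) (S : Set ℕ)
    (hN : x ^ (12 * (piT A B t x + piT A B (-t) x)) ≤ N) :
    (N : ℝ) ≤ 256 * 3 ^ (piT A B t x + piT A B (-t) x) * (({D : ℕ | 1 ≤ D ∧ D ≤ N ∧ Squarefree D ∧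
      ∀ p : ℕ, p ≤ x → p.Prime → ¬ ((p : ℤ) ∣ 2 * (4 * A ^ 3 + 27 * B ^ 2)) →
        (ap A B p = t ∨ ap A B p = -t) → ¬ ((p : ℤ) ∣ D) ∧
        (p ∈ S → ap (A * (D : ℤ) ^ 2) (B * (D : ℤ) ^ 3) p = t) ∧
        (p ∉ S → ap (A * (D : ℤ) ^ 2) (B * (D : ℤ) ^ 3) p = -t)}.ncard : ℕ) : ℝ) := by
  classical
  set P := PT A B t x with hP
  have hPprop : ∀ p ∈ P, p.Prime ∧ p ≠ 2 := fun p hp => ⟨(PT_prop A B t x p hp).1, (PT_prop A B t x p hp).2.1⟩
  have hcard : P.card = piT A B t x + piT A B (-t) x := by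
    have := card_PT A B t ht x
    exact_mod_cast this
  rw [← hcard] at hN ⊢
  set E : Set ℕ := {D : ℕ | 1 ≤ D ∧ D ≤ N ∧ Squarefree D ∧
      ∀ p : ℕ, p ≤ x → p.Prime → ¬ ((p : ℤ) ∣ 2 * (4 * A ^ 3 + 27 * B ^ 2)) →
        (ap A B p = t ∨ ap A B p = -t) → ¬ ((p : ℤ) ∣ D) ∧
        (p ∈ S → ap (A * (D : ℤ) ^ 2) (B * (D : ℤ) ^ 3) p = t) ∧
        (p ∉ S → ap (A * (D : ℤ) ^ 2) (B * (D : ℤ) ^ 3) p = -t)} with hE
  have hfinE : E.Finite := (Set.finite_Icc (1 : ℕ) N).subset fun D hD => ⟨hD.1, hD.2.1⟩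
  set e : ℕ → ℤ := fun p => if (p ∈ S ↔ ap A B p = t) then 1 else -1 with he
  have he1 : ∀ p ∈ P, e p = 1 ∨ e p = -1 := by
    intro p _
    rw [he]
    simp only
    split_ifs
    · left; rfl
    · right; rfl
  have hsub : (((sqf N).filter (fun D : ℕ => ∀ p ∈ P, jacobiSym (D : ℤ) p = e p) : Finset ℕ) : Set ℕ) ⊆ E := by
    intro D hD
    rw [mem_coe, mem_filter, sqf, mem_filter, mem_Icc] at hD
    obtain ⟨⟨⟨h1, h2⟩, h3⟩, h4⟩ := hD
    refine ⟨h1, h2, h3, fun p hpx hpp hpd hor => ?_⟩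
    have hpP : p ∈ P := mem_PT.2 ⟨⟨hpp.one_lt.le, hpx⟩, hpp, hpd, hor⟩
    have hj := h4 p hpP
    have hp2 := (hPprop p hpP).2
    have hj0 : jacobiSym (D : ℤ) p ≠ 0 := by
      rw [hj]
      rcases he1 p hpP with h | h <;> rw [h] <;> norm_num
    refine ⟨not_dvd_of_jac hpp hj0, fun hpS => ?_, fun hpS => ?_⟩
    · rw [ap_twist A B D hpp hp2, hj, he]
      simp only
      rcases hor with h | h
      · rw [if_pos ⟨fun _ => h, fun _ => hpS⟩, h, one_mul]
      · rw [if_neg, h]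
        · ring
        · intro hiff
          have := hiff.1 hpS
          rw [h] at this
          omega
    · rw [ap_twist A B D hpp hp2, hj, he]
      simp only
      rcases hor with h | h
      · rw [if_neg, h]
        · ring
        · intro hiff
          exact hpS (hiff.2 h)
      · rw [if_pos, h, one_mul]
        constructor
        · intro h'; exact absurd h' hpS
        · intro h'
          rw [h] at h'
          omega
  have hcardle : (((sqf N).filter (fun D : ℕ => ∀ p ∈ P, jacobiSym (D : ℤ) p = e p)).card : ℝ) ≤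
      ((E.ncard : ℕ) : ℝ) := by
    rw [← Set.ncard_coe_finset]
    exact_mod_cast Set.ncard_le_ncard hsub hfinE
  rcases P.eq_empty_or_nonempty with hPe | hPn
  · -- no primes: all squarefree `D` count
    have hN1 : 1 ≤ N := by
      rw [hPe, card_empty, mul_zero, pow_zero] at hN
      exact hN
    have h256 : (N : ℝ) ≤ 256 * (((sqf N).filter (fun D : ℕ => ∀ p ∈ P, jacobiSym (D : ℤ) p = e p)).card : ℝ) := by
      have hfil : (sqf N).filter (fun D : ℕ => ∀ p ∈ P, jacobiSym (D : ℤ) p = e p) = sqf N := by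
        apply filter_true_of_mem
        intro D _ p hp
        rw [hPe] at hp
        exact absurd hp (notMem_empty _)
      rw [hfil]
      rcases Nat.lt_or_ge N 256 with hlt | hge
      · have h1 : 1 ∈ sqf N := mem_filter.2 ⟨mem_Icc.2 ⟨le_rfl, hN1⟩, squarefree_one⟩
        have h2 : 1 ≤ (sqf N).card := card_pos.2 ⟨1, h1⟩
        have h3 : (1 : ℝ) ≤ (sqf N).card := by exact_mod_cast h2
        have h4 : (N : ℝ) ≤ 256 := by exact_mod_cast hlt.le
        linarith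
      · have h := pattern ∅ (by simp) e (by simp) N (by simpa using hge)
        have h0 : (sqf N).filter (fun D : ℕ => ∀ p ∈ (∅ : Finset ℕ), jacobiSym (D : ℤ) p = e p) = sqf N := by
          apply filter_true_of_mem
          intro D _ p hp
          exact absurd hp (notMem_empty _)
        rw [h0, card_empty, pow_zero, mul_one] at h
        have : (0 : ℝ) ≤ (sqf N).card := Nat.cast_nonneg _
        linarith
    rw [hPe, card_empty, pow_zero, mul_one]
    rw [hPe] at hcardle h256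
    linarith
  · have hq : 256 * (∏ p ∈ P, p) ^ 6 ≤ N := by
      refine le_trans ?_ hN
      have h1 : ∏ p ∈ P, p ≤ x ^ P.card := by
        rw [← prod_const]
        exact prod_le_prod' fun p hp => (PT_prop A B t x p hp).2.2
      have hm1 : 1 ≤ P.card := hPn.card_pos
      have hx3 : 3 ≤ x := by
        obtain ⟨p, hp⟩ := hPn
        have h5 := PT_prop A B t x p hp
        have := h5.1.two_le
        have := h5.2.1
        have := h5.2.2
        omega
      have h256 : 256 ≤ x ^ 6 := by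
        calc 256 ≤ 3 ^ 6 := by norm_num
          _ ≤ x ^ 6 := Nat.pow_le_pow_left hx3 6
      calc 256 * (∏ p ∈ P, p) ^ 6 ≤ x ^ 6 * (x ^ P.card) ^ 6 :=
            Nat.mul_le_mul h256 (Nat.pow_le_pow_left h1 6)
        _ = x ^ (6 + P.card * 6) := by rw [← pow_mul, ← pow_add]
        _ ≤ x ^ (12 * P.card) := Nat.pow_le_pow_right (by omega) (by omega)
    have h := pattern P hPprop e he1 N hq
    have h0 : (0 : ℝ) ≤ (((sqf N).filter (fun D : ℕ => ∀ p ∈ P, jacobiSym (D : ℤ) p = e p)).card : ℝ) :=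
      Nat.cast_nonneg _
    have h3 : (0 : ℝ) < 3 ^ P.card := by positivity
    calc (N : ℝ) ≤ 16 * 3 ^ P.card * (((sqf N).filter (fun D : ℕ => ∀ p ∈ P, jacobiSym (D : ℤ) p = e p)).card : ℝ) := h
      _ ≤ 256 * 3 ^ P.card * ((E.ncard : ℕ) : ℝ) := by
          apply mul_le_mul _ hcardle h0 (by positivity)
          nlinarith

end Pool.Agent.H537.LX
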