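import Mathlib
import Pool.Agent.H537.LX.Pat
import Pool.Agent.H537.LX.Pos

set_option autoImplicit false

/-! # The twists of a curve which satisfies the conjecture of Lang and Trotter at `± t` -/

namespace Pool.Agent.H537.LX

open Finset Filter Topology Pool.Agent.W406.TW

lemma piT_zero (A B t : ℤ) (ht : t ≠ 0) (x y : ℕ) (hy : y ≤ x) (D : ℕ)
    (h : ∀ p : ℕ, p ≤ x → p.Prime → ¬ ((p : ℤ) ∣ 2 * (4 * A ^ 3 + 27 * B ^ 2)) →
        (ap A B p = t ∨ ap A B p = -t) → ¬ ((p : ℤ) ∣ D) ∧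
        (p ∈ (∅ : Set ℕ) → ap (A * (D : ℤ) ^ 2) (B * (D : ℤ) ^ 3) p = t) ∧
        (p ∉ (∅ : Set ℕ) → ap (A * (D : ℤ) ^ 2) (B * (D : ℤ) ^ 3) p = -t)) :
    piT (A * (D : ℤ) ^ 2) (B * (D : ℤ) ^ 3) t y = 0 := by
  classical
  unfold piT
  rw [card_eq_zero, filter_eq_empty_iff]
  rintro p hp ⟨hpp, hnd, hap⟩
  rw [mem_Icc] at hp
  have hdisc : 2 * (4 * (A * (D : ℤ) ^ 2) ^ 3 + 27 * (B * (D : ℤ) ^ 3) ^ 2) =
    2 * (4 * A ^ 3 + 27 * B ^ 2) * (D : ℤ) ^ 6 := by ring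
  have hpd : ¬ (p : ℤ) ∣ 2 * (4 * A ^ 3 + 27 * B ^ 2) := by
    intro h'
    apply hnd
    rw [hdisc]
    exact Dvd.dvd.mul_right h' _
  have hp2 : p ≠ 2 := by
    rintro rfl
    exact hpd (Dvd.intro _ rfl)
  have hor : ap A B p = t ∨ ap A B p = -t := by
    rw [ap_twist A B D hpp hp2] at hap
    rcases jacobiSym.trichotomy (D : ℤ) p with h1 | h1 | h1
    · rw [h1, zero_mul] at hap; exact absurd hap.symm ht
    · rw [h1, one_mul] at hap; left; exact hap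
    · rw [h1] at hap; right; omega
  have h2 := (h p (le_trans hp.2 hy) hpp hpd hor).2.2 (Set.notMem_empty p)
  rw [hap] at h2
  omega

/-- above `(log N) ^ (2 + η)` -/
theorem cor_above (A B t : ℤ) (ht : t ≠ 0) (K : ℝ) (hK : 0 < K)
    (h : Tendsto (fun x : ℕ => ((piT A B t x : ℝ) + piT A B (-t) x) * Real.log x / √x) atTop (𝓝 K))
    (η : ℝ) (hη : 0 < η) :
    ∃ c : ℝ, 0 < c ∧ ∃ N₀ : ℕ, ∀ N : ℕ, N₀ ≤ N →
      ({D : ℤ | D ≠ 0 ∧ |D| ≤ N ∧ ∃ x : ℕ, (Real.log N) ^ (2 + η) ≤ x ∧ (x : ℝ) ≤ (N : ℝ) ^ c ∧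
        η < |(piT (A * D ^ 2) (B * D ^ 3) t x : ℝ) * Real.log x / √x - K / 2|}.ncard : ℝ) ≤
      (N : ℝ) ^ (1 - c) := by
  classical
  set ε : ℝ := 1 / (4 + η) with hε
  have hε0 : 0 < ε := by positivity
  have hε4 : ε < 1 / 4 := by
    rw [hε]
    apply one_div_lt_one_div_of_lt (by norm_num)
    linarith
  have hC : 1 / (2 * ε) < 2 + η := by
    rw [hε]
    have : 1 / (2 * (1 / (4 + η))) = (4 + η) / 2 := by field_simp
    rw [this]; linarith
  obtain ⟨c, hc, N₁, hN₁⟩ := above ε (2 + η) hε0 hC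
  -- the size of `x`
  have e1 : ∀ᶠ x : ℕ in atTop, |((piT A B t x : ℝ) + piT A B (-t) x) * Real.log x / √x - K| < min η K := by
    have := (Metric.tendsto_nhds.1 h) (min η K) (lt_min hη hK)
    filter_upwards [this] with x hx
    rwa [Real.dist_eq] at hx
  have e2 : Tendsto (fun x : ℕ => √(2 * K) * ((x : ℝ) ^ (ε - 1 / 4) * √(Real.log x))) atTop (𝓝 0) := by
    have e3 : Tendsto (fun x : ℝ => Real.log x / x ^ (2 * (1 / 4 - ε))) atTop (𝓝 0) :=
      (isLittleO_log_rpow_atTop (by linarith : 0 < 2 * (1 / 4 - ε))).tendsto_div_nhds_zero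
    have e4 : Tendsto (fun x : ℝ => √(Real.log x / x ^ (2 * (1 / 4 - ε)))) atTop (𝓝 0) := by
      have := (Real.continuous_sqrt.tendsto 0).comp e3
      rwa [Real.sqrt_zero] at this
    have e5 : Tendsto (fun x : ℝ => √(2 * K) * √(Real.log x / x ^ (2 * (1 / 4 - ε)))) atTop (𝓝 0) := by
      have := e4.const_mul (√(2 * K))
      rwa [mul_zero] at this
    refine (e5.comp tendsto_natCast_atTop_atTop).congr' ?_
    filter_upwards [eventually_ge_atTop 1] with x hx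
    simp only [Function.comp_apply]
    have hx0 : (0 : ℝ) < x := by exact_mod_cast hx
    have hl : 0 ≤ Real.log x := Real.log_nonneg (by exact_mod_cast hx)
    rw [Real.sqrt_div hl, Real.sqrt_eq_rpow ((x : ℝ) ^ (2 * (1 / 4 - ε))), ← Real.rpow_mul hx0.le]
    have : (x : ℝ) ^ (ε - 1 / 4) = ((x : ℝ) ^ (2 * (1 / 4 - ε) * (1 / 2)))⁻¹ := by
      rw [← Real.rpow_neg hx0.le]; congr 1; ring
    rw [this]
    ring
  have e6 : ∀ᶠ x : ℕ in atTop, √(2 * K) * ((x : ℝ) ^ (ε - 1 / 4) * √(Real.log x)) < η / 2 :=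
    (tendsto_order.1 e2).2 _ (by positivity)
  obtain ⟨x₀, hx₀⟩ := eventually_atTop.1 ((e1.and e6).and (eventually_ge_atTop 2))
  have hlim := ((tendsto_rpow_atTop (by linarith : 0 < 2 + η)).comp
    (Real.tendsto_log_atTop.comp tendsto_natCast_atTop_atTop)).eventually_ge_atTop (x₀ : ℝ)
  obtain ⟨N₂, hN₂⟩ := eventually_atTop.1 hlim
  refine ⟨c, hc, max N₁ N₂, fun N hN => ?_⟩
  have hLx := hN₂ N (le_trans (le_max_right _ _) hN)
  simp only [Function.comp_apply] at hLx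
  refine le_trans (Nat.cast_le.2 (Set.ncard_le_ncard ?_ ?_)) (hN₁ N (le_trans (le_max_left _ _) hN) A B)
  swap
  · exact (Set.finite_Icc (-(N : ℤ)) N).subset fun D hD => abs_le.1 hD.2.1
  intro D hD
  obtain ⟨hD0, hDN, x, hx1, hx2, hlt⟩ := hD
  refine ⟨hD0, hDN, x, hx1, hx2, t, ht, ?_⟩
  have hxx : x₀ ≤ x := by exact_mod_cast le_trans hLx hx1
  obtain ⟨⟨h1, h2⟩, h3⟩ := hx₀ x hxx
  by_contra hcon
  rw [not_lt] at hcon
  apply absurd hlt
  rw [not_lt]
  set m : ℝ := (piT A B t x : ℝ) + piT A B (-t) x with hm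
  have hm0 : 0 ≤ m := by positivity
  set n : ℝ := (piT (A * D ^ 2) (B * D ^ 3) t x : ℝ) with hn
  have hx0 : (0 : ℝ) < x := by
    have : 0 < x := by omega
    exact_mod_cast this
  have hl0 : 0 < Real.log x := Real.log_pos (by exact_mod_cast (by omega : 1 < x))
  have hs0 : 0 < √(x : ℝ) := Real.sqrt_pos.2 hx0
  -- the size of `m`
  have h1' : |m * Real.log x / √x - K| < min η K := h1
  have hmK : m * Real.log x / √x ≤ 2 * K := by
    have := (abs_lt.1 h1').2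
    have := min_le_right η K
    linarith
  have herr : √m * (x : ℝ) ^ ε * Real.log x / √x ≤ √(2 * K) * ((x : ℝ) ^ (ε - 1 / 4) * √(Real.log x)) := by
    have hm1 : m ≤ 2 * K * √x / Real.log x := by
      rw [le_div_iff₀ hl0]
      rwa [div_le_iff₀ hs0] at hmK
    have hm2 : √m ≤ √(2 * K) * (x : ℝ) ^ (1 / 4 : ℝ) / √(Real.log x) := by
      calc √m ≤ √(2 * K * √x / Real.log x) := Real.sqrt_le_sqrt hm1
        _ = √(2 * K) * √(√x) / √(Real.log x) := by
            rw [Real.sqrt_div (by positivity), Real.sqrt_mul (by positivity)]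
        _ = _ := by
            have : √(√(x : ℝ)) = (x : ℝ) ^ (1 / 4 : ℝ) := by
              rw [Real.sqrt_eq_rpow, Real.sqrt_eq_rpow, ← Real.rpow_mul hx0.le]
              norm_num
            rw [this]
    have hsl : 0 < √(Real.log x) := Real.sqrt_pos.2 hl0
    have hsl2 : √(Real.log x) * √(Real.log x) = Real.log x := Real.mul_self_sqrt hl0.le
    calc √m * (x : ℝ) ^ ε * Real.log x / √x
        ≤ (√(2 * K) * (x : ℝ) ^ (1 / 4 : ℝ) / √(Real.log x)) * (x : ℝ) ^ ε * Real.log x / √x := by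
          gcongr
      _ = √(2 * K) * ((x : ℝ) ^ (1 / 4 : ℝ) * (x : ℝ) ^ ε / √x) * (Real.log x / √(Real.log x)) := by ring
      _ = √(2 * K) * (x : ℝ) ^ (ε - 1 / 4) * √(Real.log x) := by
          have h5 : (x : ℝ) ^ (1 / 4 : ℝ) * (x : ℝ) ^ ε / √x = (x : ℝ) ^ (ε - 1 / 4) := by
            rw [Real.sqrt_eq_rpow, ← Real.rpow_add hx0, ← Real.rpow_sub hx0]
            congr 1
            ring
          have h6 : Real.log x / √(Real.log x) = √(Real.log x) := by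
            rw [div_eq_iff hsl.ne', hsl2]
          rw [h5, h6]
      _ = _ := by ring
  have hfin : n * Real.log x / √x - K / 2 =
      (n - m / 2) * (Real.log x / √x) + (m * Real.log x / √x - K) / 2 := by ring
  rw [hfin]
  have hlx : 0 < Real.log x / √x := by positivity
  calc |(n - m / 2) * (Real.log x / √x) + (m * Real.log x / √x - K) / 2|
      ≤ |(n - m / 2) * (Real.log x / √x)| + |(m * Real.log x / √x - K) / 2| := abs_add_le _ _
    _ = |n - m / 2| * (Real.log x / √x) + |m * Real.log x / √x - K| / 2 := by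
        rw [abs_mul, abs_of_pos hlx, abs_div, abs_of_pos (by norm_num : (0 : ℝ) < 2)]
    _ ≤ √m * (x : ℝ) ^ ε * (Real.log x / √x) + η / 2 := by
        apply add_le_add
        · exact mul_le_mul_of_nonneg_right hcon hlx.le
        · have := min_le_left η K
          linarith
    _ = √m * (x : ℝ) ^ ε * Real.log x / √x + η / 2 := by ring
    _ ≤ η / 2 + η / 2 := by linarith
    _ = η := by ring

/-- below `κ (log N) ^ 2` -/
theorem cor_below (A B t : ℤ) (ht : t ≠ 0) (K : ℝ) (hK : 0 < K)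
    (h : Tendsto (fun x : ℕ => ((piT A B t x : ℝ) + piT A B (-t) x) * Real.log x / √x) atTop (𝓝 K)) :
    ∃ κ : ℝ, 0 < κ ∧ ∀ δ : ℝ, 0 < δ → ∃ N₀ : ℕ, ∀ N : ℕ, N₀ ≤ N →
      (N : ℝ) ^ (1 - δ) ≤ ({D : ℕ | 1 ≤ D ∧ D ≤ N ∧ Squarefree D ∧ ∀ x : ℕ, (x : ℝ) ≤ κ * (Real.log N) ^ 2 →
        piT (A * (D : ℤ) ^ 2) (B * (D : ℤ) ^ 3) t x = 0}.ncard : ℝ) := by
  classical
  set κ : ℝ := (1 / (24 * K)) ^ 2 with hκ
  have hκ0 : 0 < κ := by positivity
  refine ⟨κ, hκ0, fun δ hδ => ?_⟩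
  have e1 : ∀ᶠ x : ℕ in atTop, |((piT A B t x : ℝ) + piT A B (-t) x) * Real.log x / √x - K| < K := by
    have := (Metric.tendsto_nhds.1 h) K hK
    filter_upwards [this] with x hx
    rwa [Real.dist_eq] at hx
  have e2 : ∀ᶠ x : ℕ in atTop, Real.log 3 / 12 * (2 / δ) ≤ Real.log x :=
    (Real.tendsto_log_atTop.comp tendsto_natCast_atTop_atTop).eventually_ge_atTop _
  obtain ⟨x₀, hx₀⟩ := eventually_atTop.1 ((e1.and e2).and (eventually_ge_atTop 2))
  have hlog := Real.tendsto_log_atTop.comp (tendsto_natCast_atTop_atTop (R := ℝ))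
  have e3 : Tendsto (fun N : ℕ => κ * (Real.log N) ^ 2) atTop atTop :=
    ((tendsto_pow_atTop (by norm_num : (2 : ℕ) ≠ 0)).comp hlog).const_mul_atTop hκ0
  obtain ⟨N₀, hN₀⟩ := eventually_atTop.1 (((e3.eventually_ge_atTop ((x₀ : ℝ) + 1)).and
    (hlog.eventually_ge_atTop (max 1 (Real.log 256 * (2 / δ))))).and (eventually_ge_atTop 1))
  refine ⟨N₀, fun N hN => ?_⟩
  obtain ⟨⟨h1, h2⟩, h3⟩ := hN₀ N hN
  simp only [Function.comp_apply] at h2
  set L : ℝ := Real.log N with hL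
  have hL1 : 1 ≤ L := le_trans (le_max_left _ _) h2
  have hL2 : Real.log 256 * (2 / δ) ≤ L := le_trans (le_max_right _ _) h2
  have hN0 : (0 : ℝ) < N := by exact_mod_cast h3
  set X : ℕ := ⌊κ * L ^ 2⌋₊ with hX
  have hXle : (X : ℝ) ≤ κ * L ^ 2 := Nat.floor_le (by positivity)
  have hXx : x₀ ≤ X := Nat.le_floor (by linarith)
  obtain ⟨⟨h4, h5⟩, h6⟩ := hx₀ X hXx
  set m : ℝ := (piT A B t X : ℝ) + piT A B (-t) X with hm
  have hm0 : 0 ≤ m := by positivity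
  have hX0 : (0 : ℝ) < X := by
    have : 0 < X := by omega
    exact_mod_cast this
  have hl0 : 0 < Real.log X := Real.log_pos (by exact_mod_cast (by omega : 1 < X))
  have hs0 : 0 < √(X : ℝ) := Real.sqrt_pos.2 hX0
  have hmK : m * Real.log X ≤ 2 * K * √X := by
    have := (abs_lt.1 h4).2
    have h7 : m * Real.log X / √X ≤ 2 * K := by linarith
    rwa [div_le_iff₀ hs0] at h7
  have hsX : √(X : ℝ) ≤ 1 / (24 * K) * L := by
    have h7 : √(X : ℝ) ≤ √(κ * L ^ 2) := Real.sqrt_le_sqrt hXle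
    have h8 : √(κ * L ^ 2) = 1 / (24 * K) * L := by
      rw [hκ, ← mul_pow, Real.sqrt_sq (by positivity)]
    rwa [h8] at h7
  have hmL : 12 * (m * Real.log X) ≤ L := by
    calc 12 * (m * Real.log X) ≤ 12 * (2 * K * √X) := by linarith
      _ ≤ 12 * (2 * K * (1 / (24 * K) * L)) := by gcongr
      _ = L := by field_simp; ring
  -- the power of `X`
  set M : ℕ := piT A B t X + piT A B (-t) X with hM
  have hMm : (M : ℝ) = m := by rw [hM, hm]; push_cast; rfl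
  have hXN : X ^ (12 * M) ≤ N := by
    have h7 : ((X : ℝ)) ^ (12 * M) ≤ N := by
      have e : (X : ℝ) ^ (12 * M) = Real.exp (((12 * M : ℕ) : ℝ) * Real.log X) := by
        rw [Real.exp_nat_mul, Real.exp_log hX0]
      rw [e, ← Real.exp_log hN0, ← hL]
      apply Real.exp_le_exp.2
      push_cast
      rw [hMm]
      linarith
    exact_mod_cast h7
  have key := traces A B t ht X N ∅ hXN
  rw [← hM] at key
  set E : Set ℕ := {D : ℕ | 1 ≤ D ∧ D ≤ N ∧ Squarefree D ∧ ∀ x : ℕ, (x : ℝ) ≤ κ * L ^ 2 →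
        piT (A * (D : ℤ) ^ 2) (B * (D : ℤ) ^ 3) t x = 0} with hE
  have hfinE : E.Finite := (Set.finite_Icc (1 : ℕ) N).subset fun D hD => ⟨hD.1, hD.2.1⟩
  have hcard : (({D : ℕ | 1 ≤ D ∧ D ≤ N ∧ Squarefree D ∧
      ∀ p : ℕ, p ≤ X → p.Prime → ¬ ((p : ℤ) ∣ 2 * (4 * A ^ 3 + 27 * B ^ 2)) →
        (ap A B p = t ∨ ap A B p = -t) → ¬ ((p : ℤ) ∣ D) ∧
        (p ∈ (∅ : Set ℕ) → ap (A * (D : ℤ) ^ 2) (B * (D : ℤ) ^ 3) p = t) ∧
        (p ∉ (∅ : Set ℕ) → ap (A * (D : ℤ) ^ 2) (B * (D : ℤ) ^ 3) p = -t)}.ncard : ℕ) : ℝ) ≤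
        ((E.ncard : ℕ) : ℝ) := by
    refine Nat.cast_le.2 (Set.ncard_le_ncard ?_ hfinE)
    rintro D ⟨g1, g2, g3, g4⟩
    exact ⟨g1, g2, g3, fun x hx => piT_zero A B t ht X x (Nat.le_floor hx) D g4⟩
  have h3M : (256 : ℝ) * 3 ^ M ≤ (N : ℝ) ^ δ := by
    have e : (256 : ℝ) * 3 ^ M = Real.exp (Real.log 256 + (M : ℝ) * Real.log 3) := by
      rw [Real.exp_add, Real.exp_log (by norm_num), Real.exp_nat_mul, Real.exp_log (by norm_num)]
    rw [e, Real.rpow_def_of_pos hN0, ← hL, hMm]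
    apply Real.exp_le_exp.2
    have g1 : Real.log 256 ≤ δ / 2 * L := by
      have : Real.log 256 * (2 / δ) * (δ / 2) ≤ L * (δ / 2) := mul_le_mul_of_nonneg_right hL2 (by positivity)
      have e9 : Real.log 256 * (2 / δ) * (δ / 2) = Real.log 256 := by field_simp
      rw [e9] at this
      linarith
    have g2 : m * Real.log 3 ≤ δ / 2 * L := by
      have g3 : Real.log 3 / 12 ≤ δ / 2 * Real.log X := by
        have : Real.log 3 / 12 * (2 / δ) * (δ / 2) ≤ Real.log X * (δ / 2) :=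
          mul_le_mul_of_nonneg_right h5 (by positivity)
        have e9 : Real.log 3 / 12 * (2 / δ) * (δ / 2) = Real.log 3 / 12 := by field_simp
        rw [e9] at this
        linarith
      calc m * Real.log 3 = 12 * m * (Real.log 3 / 12) := by ring
        _ ≤ 12 * m * (δ / 2 * Real.log X) := mul_le_mul_of_nonneg_left g3 (by positivity)
        _ = δ / 2 * (12 * (m * Real.log X)) := by ring
        _ ≤ δ / 2 * L := mul_le_mul_of_nonneg_left hmL (by positivity)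
    linarith
  have hNδ : 0 < (N : ℝ) ^ δ := Real.rpow_pos_of_pos hN0 _
  have hfin : (N : ℝ) ≤ (N : ℝ) ^ δ * ((E.ncard : ℕ) : ℝ) := by
    refine le_trans key ?_
    exact mul_le_mul h3M hcard (Nat.cast_nonneg _) hNδ.le
  calc (N : ℝ) ^ (1 - δ) = N / (N : ℝ) ^ δ := by rw [Real.rpow_sub hN0, Real.rpow_one]
    _ ≤ ((E.ncard : ℕ) : ℝ) := by
        rw [div_le_iff₀ hNδ]
        linarith

end Pool.Agent.H537.LX
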