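import Mathlib
import Pool.Agent.H537.LX.Sfm
import Pool.Agent.H537.LX.Neg

set_option autoImplicit false

/-! # Primes with a given Frobenius trace for many squarefree quadratic twists, below the threshold -/

namespace Pool.Agent.H537.LX

open Finset Pool.Agent.W406.TW

theorem below_gen' (A B t : ℤ) (ht : t ≠ 0) (x k N : ℕ) (hk : 1 ≤ k)
    (hM : 2 * k ≤ piT A B t x + piT A B (-t) x) (hN : x ^ (24 * k) ≤ N) :
    (N : ℝ) ≤ (x : ℝ) ^ (9 * k) * (({D : ℕ | 1 ≤ D ∧ D ≤ N ∧ Squarefree D ∧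
      √((k : ℝ) * (piT A B t x + piT A B (-t) x)) / 17 ≤
        (piT (A * (D : ℤ) ^ 2) (B * (D : ℤ) ^ 3) t x : ℝ) - piT (A * (D : ℤ) ^ 2) (B * (D : ℤ) ^ 3) (-t) x}.ncard : ℕ) : ℝ) := by
  classical
  have hc := card_PT A B t ht x
  have hM' : 2 * k ≤ (PT A B t x).card := by
    have : (2 * (k : ℝ)) ≤ ((PT A B t x).card : ℝ) := by
      rw [hc]; exact_mod_cast hM
    exact_mod_cast this
  have h := extreme' (PT A B t x) (sg A B t) N x k hk hM'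
    (fun p hp => ⟨(PT_prop A B t x p hp).1, (PT_prop A B t x p hp).2.1⟩)
    (fun p hp => (PT_prop A B t x p hp).2.2)
    (fun p _ => by unfold sg; split_ifs <;> simp) hN
  refine le_trans h ?_
  apply mul_le_mul_of_nonneg_left _ (by positivity)
  rw [hc]
  set E : Set ℕ := {D : ℕ | 1 ≤ D ∧ D ≤ N ∧ Squarefree D ∧ √((k : ℝ) * (piT A B t x + piT A B (-t) x)) / 17 ≤
        (piT (A * (D : ℤ) ^ 2) (B * (D : ℤ) ^ 3) t x : ℝ) - piT (A * (D : ℤ) ^ 2) (B * (D : ℤ) ^ 3) (-t) x} with hE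
  have hfinE : E.Finite := (Set.finite_Icc (1 : ℕ) N).subset fun D hD => ⟨hD.1, hD.2.1⟩
  rw [← Set.ncard_coe_finset]
  refine Nat.cast_le.2 (Set.ncard_le_ncard ?_ hfinE)
  intro D hD
  rw [mem_coe, mem_filter, sqf, mem_filter, mem_Icc] at hD
  obtain ⟨⟨⟨h1, h2⟩, h3⟩, h4⟩ := hD
  refine ⟨h1, h2, h3, ?_⟩
  rw [diff A B t _ ht x]
  exact h4

theorem below' (ε C δ : ℝ) (hε : 0 < ε) (hC0 : 0 < C) (hC : C < 1 / (2 * ε)) (hδ : 0 < δ) :
    ∃ N₀ : ℕ, ∀ N : ℕ, N₀ ≤ N → ∀ x : ℕ, 1 ≤ x → (x : ℝ) ≤ (Real.log N) ^ C → ∀ A B t : ℤ, t ≠ 0 →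
      2400 * (x : ℝ) ^ (2 * ε) ≤ (piT A B t x : ℝ) + piT A B (-t) x →
      (N : ℝ) ^ (1 - δ) ≤ (({D : ℕ | 1 ≤ D ∧ D ≤ N ∧ Squarefree D ∧
        2 * (√((piT A B t x : ℝ) + piT A B (-t) x) * (x : ℝ) ^ ε) <
          (piT (A * (D : ℤ) ^ 2) (B * (D : ℤ) ^ 3) (-t) x : ℝ) - piT (A * (D : ℤ) ^ 2) (B * (D : ℤ) ^ 3) t x ∧
        (piT (A * (D : ℤ) ^ 2) (B * (D : ℤ) ^ 3) t x : ℝ) < (piT A B t x + piT A B (-t) x) / 2 -
          √((piT A B t x : ℝ) + piT A B (-t) x) * (x : ℝ) ^ ε}.ncard : ℕ) : ℝ) := by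
  classical
  have hCε : 2 * ε * C < 1 := by
    rw [lt_div_iff₀ (by positivity)] at hC
    linarith
  set κ : ℝ := (1 - 2 * ε * C) / 2 with hκ
  have hκ0 : 0 < κ := by rw [hκ]; linarith
  set δ' : ℝ := min δ 1 with hδ'
  have hδ'0 : 0 < δ' := lt_min hδ one_pos
  have hδ'1 : δ' ≤ 1 := min_le_right _ _
  have hδ'2 : δ' ≤ δ := min_le_left _ _
  have hlim := (Real.tendsto_log_atTop.comp tendsto_natCast_atTop_atTop).eventually_ge_atTop (1 : ℝ)
  have hlim2 := ((tendsto_rpow_atTop hκ0).comp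
    (Real.tendsto_log_atTop.comp tendsto_natCast_atTop_atTop)).eventually_ge_atTop (27792 * C / (κ * δ'))
  obtain ⟨N₀, hN₀⟩ := Filter.eventually_atTop.1 ((hlim.and hlim2).and (Filter.eventually_ge_atTop 1))
  refine ⟨N₀, fun N hN x hx1 hxC A B t ht hm => ?_⟩
  obtain ⟨⟨hL1, hL2⟩, hN1⟩ := hN₀ N hN
  simp only [Function.comp_apply] at hL1 hL2
  set L : ℝ := Real.log N with hL
  have hL0 : 0 < L := by linarith
  have hN0 : (0 : ℝ) < N := by exact_mod_cast hN1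
  have hx1' : (1 : ℝ) ≤ x := by exact_mod_cast hx1
  have hx0 : (0 : ℝ) < x := by linarith
  set X : ℝ := (x : ℝ) ^ (2 * ε) with hX
  have hX1 : 1 ≤ X := Real.one_le_rpow hx1' (by positivity)
  set k : ℕ := ⌈1156 * X⌉₊ + 1 with hk
  have hk1 : 1156 * X < k := by
    have := Nat.le_ceil (1156 * X)
    rw [hk]; push_cast; linarith
  have hk2 : (k : ℝ) ≤ 1158 * X := by
    have := Nat.ceil_lt_add_one (by positivity : 0 ≤ 1156 * X)
    rw [hk]; push_cast; linarith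
  have hk0 : 1 ≤ k := by omega
  set m : ℝ := (piT A B t x : ℝ) + piT A B (-t) x with hmd
  have hm0 : 0 < m := by linarith
  have hM : 2 * k ≤ piT A B (-t) x + piT A B (- -t) x := by
    have : 2 * (k : ℝ) ≤ m := by linarith
    rw [neg_neg, add_comm]
    rw [hmd] at this
    exact_mod_cast this
  -- the size of `x`
  have hlx : 0 ≤ Real.log x := Real.log_nonneg hx1'
  have hlx2 : 27792 * X * Real.log x ≤ δ' * L := by
    have h1 : Real.log x ≤ C * Real.log L := by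
      rw [← Real.log_rpow hL0]
      exact Real.log_le_log hx0 hxC
    have h2 : X ≤ L ^ (2 * ε * C) := by
      calc X ≤ (L ^ C) ^ (2 * ε) := Real.rpow_le_rpow hx0.le hxC (by positivity)
        _ = _ := by rw [← Real.rpow_mul hL0.le]; congr 1; ring
    have h3 : Real.log L ≤ L ^ κ / κ := Real.log_le_rpow_div hL0.le hκ0
    have h4 : L ^ κ * L ^ κ * L ^ (2 * ε * C) = L := by
      rw [← Real.rpow_add hL0, ← Real.rpow_add hL0]
      have : κ + κ + 2 * ε * C = 1 := by rw [hκ]; ring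
      rw [this, Real.rpow_one]
    have hLk : 0 < L ^ κ := Real.rpow_pos_of_pos hL0 _
    have hLc : 0 < L ^ (2 * ε * C) := Real.rpow_pos_of_pos hL0 _
    rw [div_le_iff₀ (by positivity)] at hL2
    calc 27792 * X * Real.log x ≤ 27792 * L ^ (2 * ε * C) * (C * (L ^ κ / κ)) := by
          apply mul_le_mul _ _ hlx (by positivity)
          · linarith
          · exact le_trans h1 (mul_le_mul_of_nonneg_left h3 hC0.le)
      _ = (27792 * C) * (L ^ (2 * ε * C) * L ^ κ) / κ := by ring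
      _ ≤ (L ^ κ * (κ * δ')) * (L ^ (2 * ε * C) * L ^ κ) / κ := by gcongr
      _ = δ' * (L ^ κ * L ^ κ * L ^ (2 * ε * C)) := by field_simp
      _ = δ' * L := by rw [h4]
  have hpow : ∀ a : ℕ, a ≤ 24 → (x : ℝ) ^ (a * k) ≤ (N : ℝ) ^ δ' := by
    intro a ha
    have ha' : (a : ℝ) ≤ 24 := by exact_mod_cast ha
    have e : (x : ℝ) ^ (a * k) = Real.exp (((a * k : ℕ) : ℝ) * Real.log x) := by
      rw [Real.exp_nat_mul, Real.exp_log hx0]
    rw [e, Real.rpow_def_of_pos hN0, ← hL]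
    apply Real.exp_le_exp.2
    calc ((a * k : ℕ) : ℝ) * Real.log x ≤ (24 * (1158 * X)) * Real.log x := by
          apply mul_le_mul_of_nonneg_right _ hlx
          push_cast
          exact mul_le_mul ha' hk2 (Nat.cast_nonneg _) (by norm_num)
      _ = 27792 * X * Real.log x := by ring
      _ ≤ δ' * L := hlx2
      _ = L * δ' := mul_comm _ _
  have hN1' : (1 : ℝ) ≤ N := by exact_mod_cast hN1
  have hxN : x ^ (24 * k) ≤ N := by
    have h1 := hpow 24 le_rfl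
    have h2 : (N : ℝ) ^ δ' ≤ N := by
      calc (N : ℝ) ^ δ' ≤ (N : ℝ) ^ (1 : ℝ) := Real.rpow_le_rpow_of_exponent_le hN1' hδ'1
        _ = N := Real.rpow_one _
    exact_mod_cast le_trans h1 h2
  have key := below_gen' A B (-t) (neg_ne_zero.2 ht) x k N hk0 hM hxN
  rw [neg_neg] at key
  set E : Set ℕ := {D : ℕ | 1 ≤ D ∧ D ≤ N ∧ Squarefree D ∧ 2 * (√m * (x : ℝ) ^ ε) <
          (piT (A * (D : ℤ) ^ 2) (B * (D : ℤ) ^ 3) (-t) x : ℝ) - piT (A * (D : ℤ) ^ 2) (B * (D : ℤ) ^ 3) t x ∧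
        (piT (A * (D : ℤ) ^ 2) (B * (D : ℤ) ^ 3) t x : ℝ) < m / 2 - √m * (x : ℝ) ^ ε} with hE
  have hfinE : E.Finite := (Set.finite_Icc (1 : ℕ) N).subset fun D hD => ⟨hD.1, hD.2.1⟩
  set E' : Set ℕ := {D : ℕ | 1 ≤ D ∧ D ≤ N ∧ Squarefree D ∧ √((k : ℝ) * (piT A B (-t) x + piT A B t x)) / 17 ≤
        (piT (A * (D : ℤ) ^ 2) (B * (D : ℤ) ^ 3) (-t) x : ℝ) - piT (A * (D : ℤ) ^ 2) (B * (D : ℤ) ^ 3) t x} with hE'
  have hsub : E' ⊆ E := by
    intro D hD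
    obtain ⟨h1, h2, hsq, h3⟩ := hD
    have hV : 2 * (√m * (x : ℝ) ^ ε) < √((k : ℝ) * (piT A B (-t) x + piT A B t x)) / 17 := by
      rw [add_comm (piT A B (-t) x : ℝ), ← hmd, lt_div_iff₀ (by norm_num)]
      apply Real.lt_sqrt_of_sq_lt
      have e1 : (2 * (√m * (x : ℝ) ^ ε) * 17) ^ 2 = 1156 * X * m := by
        have e : ((x : ℝ) ^ ε) ^ 2 = X := by
          rw [hX, ← Real.rpow_natCast, ← Real.rpow_mul hx0.le]
          congr 1
          push_cast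
          ring
        calc (2 * (√m * (x : ℝ) ^ ε) * 17) ^ 2 = 1156 * ((x : ℝ) ^ ε) ^ 2 * (√m) ^ 2 := by ring
          _ = _ := by rw [e, Real.sq_sqrt hm0.le]
      rw [e1]
      exact mul_lt_mul_of_pos_right hk1 hm0
    have h4 : 2 * (√m * (x : ℝ) ^ ε) <
        (piT (A * (D : ℤ) ^ 2) (B * (D : ℤ) ^ 3) (-t) x : ℝ) - piT (A * (D : ℤ) ^ 2) (B * (D : ℤ) ^ 3) t x := lt_of_lt_of_le hV h3
    refine ⟨h1, h2, hsq, h4, ?_⟩
    have h5 := add_le A B t D ht x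
    rw [← hmd] at h5
    linarith
  have hcard : ((E'.ncard : ℕ) : ℝ) ≤ ((E.ncard : ℕ) : ℝ) := by
    exact_mod_cast Set.ncard_le_ncard hsub hfinE
  have h8 := hpow 9 (by norm_num)
  have hg0 : (0 : ℝ) ≤ ((E.ncard : ℕ) : ℝ) := Nat.cast_nonneg _
  have h9 : (N : ℝ) ≤ (N : ℝ) ^ δ' * ((E.ncard : ℕ) : ℝ) := by
    refine le_trans key ?_
    exact mul_le_mul h8 hcard (Nat.cast_nonneg _) (by positivity)
  have hNd : 0 < (N : ℝ) ^ δ' := Real.rpow_pos_of_pos hN0 _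
  calc (N : ℝ) ^ (1 - δ) ≤ (N : ℝ) ^ (1 - δ') := Real.rpow_le_rpow_of_exponent_le hN1' (by linarith)
    _ = N / (N : ℝ) ^ δ' := by rw [Real.rpow_sub hN0, Real.rpow_one]
    _ ≤ ((E.ncard : ℕ) : ℝ) := by
        rw [div_le_iff₀ hNd]
        linarith

end Pool.Agent.H537.LX
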